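import Pool.Agent.TH340.FF.One2

/-!
The inequality `-∫ g' f² ≤ (4/π) κ ∫ f'²` on the line for `g(a) - g(b) ≤ κ / (b - a)`, `a < b`:
first in, first out transport, measured by an angle.
-/

set_option autoImplicit false

open MeasureTheory Set Filter Topology

namespace Pool.Agent.Q176.PA

open Pool.Agent.TH340.FF

variable {f f' : ℝ → ℝ} {R : ℝ}

/-- `(P - q)² + (q - N)²` -/
noncomputable def dd2 (f f' : ℝ → ℝ) (R s q : ℝ) : ℝ :=
  (P f f' R s - q) ^ 2 + (q - N f f' R s) ^ 2

/-- the angular velocity -/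
noncomputable def av (f f' : ℝ → ℝ) (R s q : ℝ) : ℝ :=
  (dp f f' s * (q - N f f' R s) + dn f f' s * (P f f' R s - q)) / dd2 f f' R s q

theorem dp_mul_dn (f f' : ℝ → ℝ) (s : ℝ) : dp f f' s * dn f f' s = 0 := by
  unfold dp dn
  rcases le_total (2 * (f s * f' s)) 0 with h | h
  · rw [max_eq_right h]; ring
  · rw [max_eq_right (a := -(2 * (f s * f' s))) (by linarith)]; ring

theorem dp_sq_add (f f' : ℝ → ℝ) (s : ℝ) :
    dp f f' s ^ 2 + dn f f' s ^ 2 = 4 * (f s ^ 2 * f' s ^ 2) := by
  have h1 := dp_sub_dn f f' s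
  have h2 := dp_mul_dn f f' s
  linear_combination (dp f f' s - dn f f' s + 2 * (f s * f' s)) * h1 + 2 * h2

/-- the angle -/
noncomputable def ang (f f' : ℝ → ℝ) (R s q : ℝ) : ℝ :=
  Real.arctan ((P f f' R s - q) / (q - N f f' R s))

theorem hasDerivAt_ang (h : Dat f f' R) {s q : ℝ} (h1 : N f f' R s < q) :
    HasDerivAt (fun s => ang f f' R s q) (av f f' R s q) s := by
  have h2 : q - N f f' R s ≠ 0 := by linarith
  have h3 := (((h.derP s).sub_const q).div ((h.derN s).const_sub q) h2).arctan
  refine h3.congr_deriv ?_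
  simp only [Pi.div_apply]
  unfold av dd2
  have h4 : (P f f' R s - q) ^ 2 + (q - N f f' R s) ^ 2 ≠ 0 := by positivity
  have h5 : 1 + ((P f f' R s - q) / (q - N f f' R s)) ^ 2 ≠ 0 := by positivity
  have e : 1 + ((P f f' R s - q) / (q - N f f' R s)) ^ 2
      = ((P f f' R s - q) ^ 2 + (q - N f f' R s) ^ 2) / (q - N f f' R s) ^ 2 := by
    field_simp; ring
  rw [e]
  field_simp
  ring

/-- the key inequality on an interval -/
theorem key2 (h : Dat f f' R) {a b q : ℝ} (hab : a < b) (hPa : P f f' R a = q)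
    (hNb : N f f' R b = q) (hI : ∀ s ∈ Ioo a b, N f f' R s < q ∧ q < P f f' R s)
    (hG : IntegrableOn (fun s => av f f' R s q ^ 2) (Ioo a b)) :
    (Real.pi / 2) ^ 2 ≤ (b - a) * ∫ s in Ioo a b, av f f' R s q ^ 2 := by
  set J := ∫ s in Ioo a b, av f f' R s q ^ 2 with hJ
  have hJ0 : 0 ≤ J := integral_nonneg fun s => by positivity
  have hpi := Real.pi_pos
  suffices hs : ∀ η : ℝ, 0 < η → Real.pi / 2 - η ≤ Real.sqrt ((b - a) * J) by
    have h1 : Real.pi / 2 ≤ Real.sqrt ((b - a) * J) :=
      le_of_forall_pos_sub_le fun η hη => by simpa using hs η hη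
    have h3 : 0 ≤ (b - a) * J := mul_nonneg (by linarith) hJ0
    calc (Real.pi / 2) ^ 2 ≤ Real.sqrt ((b - a) * J) ^ 2 :=
          pow_le_pow_left₀ (by positivity) h1 2
      _ = _ := Real.sq_sqrt h3
  intro η hη
  set c := (a + b) / 2 with hc
  have hcI : c ∈ Ioo a b := ⟨by rw [hc]; linarith, by rw [hc]; linarith⟩
  -- near the left end the angle is small
  obtain ⟨a', ha', hAa'⟩ : ∃ a' ∈ Ioo a c, ang f f' R a' q < η / 2 := by
    have hNa : N f f' R a < q := by
      have h1 := h.monoN hcI.1.le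
      have h2 := (hI c hcI).1
      linarith
    have h1 : Tendsto (fun s => ang f f' R s q) (𝓝[>] a) (𝓝 (ang f f' R a q)) :=
      (hasDerivAt_ang h hNa).continuousAt.tendsto.mono_left nhdsWithin_le_nhds
    have h0 : ang f f' R a q = 0 := by
      unfold ang
      rw [hPa, sub_self, zero_div, Real.arctan_zero]
    rw [h0] at h1
    have h2 := h1.eventually (gt_mem_nhds (by linarith : (0 : ℝ) < η / 2))
    have h3 : ∀ᶠ s in 𝓝[>] a, s ∈ Ioo a c := Ioo_mem_nhdsGT hcI.1
    obtain ⟨s, hs1, hs2⟩ := (h2.and h3).exists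
    exact ⟨s, hs2, hs1⟩
  -- near the right end it is almost `π / 2`
  obtain ⟨b', hb', hAb'⟩ : ∃ b' ∈ Ioo c b, Real.pi / 2 - η / 2 < ang f f' R b' q := by
    have hPb : q < P f f' R b := by
      have h1 := h.monoP hcI.2.le
      have h2 := (hI c hcI).2
      linarith
    -- use the complementary angle
    set g : ℝ → ℝ := fun s => Real.arctan ((q - N f f' R s) / (P f f' R s - q)) with hg
    have hgc : ContinuousAt g b := by
      refine Real.continuous_arctan.continuousAt.comp ?_
      exact (continuous_const.sub h.contN).continuousAt.div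
        (h.contP.sub continuous_const).continuousAt (by linarith)
    have h0 : g b = 0 := by
      simp only [hg]
      rw [hNb, sub_self, zero_div, Real.arctan_zero]
    have h1 : Tendsto g (𝓝[<] b) (𝓝 0) := by
      rw [← h0]; exact hgc.tendsto.mono_left nhdsWithin_le_nhds
    have h2 := h1.eventually (gt_mem_nhds (by linarith : (0 : ℝ) < η / 2))
    have h3 : ∀ᶠ s in 𝓝[<] b, s ∈ Ioo c b := Ioo_mem_nhdsLT hcI.2
    obtain ⟨s, hs1, hs2⟩ := (h2.and h3).exists
    refine ⟨s, hs2, ?_⟩
    have hsI : s ∈ Ioo a b := ⟨hcI.1.trans hs2.1, hs2.2⟩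
    have h4 := hI s hsI
    have h5 : 0 < (P f f' R s - q) / (q - N f f' R s) :=
      div_pos (by linarith) (by linarith)
    have h6 := Real.arctan_inv_of_pos h5
    rw [inv_div] at h6
    simp only [hg] at hs1
    unfold ang
    linarith
  have hab' : a' < b' := ha'.2.trans hb'.1
  have hsub : Icc a' b' ⊆ Ioo a b := fun s hs => ⟨ha'.1.trans_le hs.1, hs.2.trans_lt hb'.2⟩
  have hDpos : ∀ s ∈ Ioo a b, 0 < dd2 f f' R s q := by
    intro s hs
    have h1 := hI s hs
    unfold dd2
    have : 0 < (q - N f f' R s) ^ 2 := by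
      have : 0 < q - N f f' R s := by linarith
      positivity
    positivity
  have hac : ContinuousOn (fun s => av f f' R s q) (Icc a' b') := by
    unfold av
    refine ContinuousOn.div ?_ ?_ fun s hs => (hDpos s (hsub hs)).ne'
    · exact ((h.cont_dp.mul (continuous_const.sub h.contN)).add
        (h.cont_dn.mul (h.contP.sub continuous_const))).continuousOn
    · unfold dd2
      exact (((h.contP.sub continuous_const).pow 2).add
        ((continuous_const.sub h.contN).pow 2)).continuousOn
  have hint : IntervalIntegrable (fun s => av f f' R s q) volume a' b' := by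
    refine ContinuousOn.intervalIntegrable ?_
    rwa [uIcc_of_le hab'.le]
  have hder : ∀ s ∈ uIcc a' b', HasDerivAt (fun s => ang f f' R s q) (av f f' R s q) s := by
    intro s hs
    rw [uIcc_of_le hab'.le] at hs
    exact hasDerivAt_ang h (hI s (hsub hs)).1
  have h3 := intervalIntegral.integral_eq_sub_of_hasDerivAt hder hint
  set A := ∫ s in a'..b', av f f' R s q with hA
  have l4 : A ^ 2 ≤ (b' - a') * ∫ s in a'..b', av f f' R s q ^ 2 := by
    set lam := A / (b' - a') with hlam
    have hl : 0 < b' - a' := by linarith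
    have h8 : ∫ s in a'..b', (2 * lam * av f f' R s q - lam ^ 2)
        ≤ ∫ s in a'..b', av f f' R s q ^ 2 := by
      refine intervalIntegral.integral_mono_on hab'.le ?_ ?_ fun s _ => ?_
      · refine ContinuousOn.intervalIntegrable ?_
        rw [uIcc_of_le hab'.le]
        exact (continuousOn_const.mul hac).sub continuousOn_const
      · refine ContinuousOn.intervalIntegrable ?_
        rw [uIcc_of_le hab'.le]
        exact hac.pow 2
      · nlinarith [sq_nonneg (av f f' R s q - lam)]
    rw [intervalIntegral.integral_sub, intervalIntegral.integral_const_mul,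
      intervalIntegral.integral_const, ← hA] at h8
    · have e2 : 2 * lam * A - (b' - a') • lam ^ 2 = A ^ 2 / (b' - a') := by
        rw [hlam, smul_eq_mul]
        field_simp
        ring
      rw [e2, div_le_iff₀ hl] at h8
      linarith
    · refine ContinuousOn.intervalIntegrable ?_
      rw [uIcc_of_le hab'.le]
      exact continuousOn_const.mul hac
    · exact intervalIntegrable_const
  have l5 : ∫ s in a'..b', av f f' R s q ^ 2 ≤ J := by
    rw [intervalIntegral.integral_of_le hab'.le, hJ]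
    refine setIntegral_mono_set hG (Eventually.of_forall fun s => sq_nonneg _) ?_
    exact (Ioc_subset_Icc_self.trans hsub).eventuallyLE
  have l6 : 0 ≤ ∫ s in a'..b', av f f' R s q ^ 2 :=
    intervalIntegral.integral_nonneg hab'.le fun s _ => sq_nonneg _
  refine le_trans (by linarith : Real.pi / 2 - η ≤ A) (Real.le_sqrt_of_sq_le (l4.trans ?_))
  have : b' - a' ≤ b - a := by linarith [ha'.1, hb'.2]
  exact mul_le_mul this l5 l6 (by linarith)

/-- `∫_N^P (q - N)² / ((P - q)² + (q - N)²)² dq = π / (4 (P - N))` -/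
theorem int_up {n p : ℝ} (hnp : n < p) :
    ∫ q in n..p, ((q - n) / ((p - q) ^ 2 + (q - n) ^ 2)) ^ 2 = Real.pi / (4 * (p - n)) := by
  set y := p - n with hy
  have hy0 : 0 < y := by rw [hy]; linarith
  have hD : ∀ q, 0 < (p - q) ^ 2 + (q - n) ^ 2 := by
    intro q
    nlinarith [sq_nonneg ((p - q) - (q - n)), sq_nonneg ((p - q) + (q - n)),
      mul_pos hy0 hy0]
  have hder : ∀ q ∈ uIcc n p, HasDerivAt
      (fun q => y⁻¹ * (-(1 / 4) * (y ^ 2 / ((p - q) ^ 2 + (q - n) ^ 2))
        + 1 / 2 * Real.arctan (2 * ((q - n) / y) - 1)))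
      (((q - n) / ((p - q) ^ 2 + (q - n) ^ 2)) ^ 2) q := by
    intro q _
    have d1 : HasDerivAt (fun q => (p - q) ^ 2 + (q - n) ^ 2) (2 * (p - q) * (-1)
        + 2 * (q - n)) q := by
      have a1 : HasDerivAt (fun q => (p - q) ^ 2) (2 * (p - q) * (-1)) q := by
        have := ((hasDerivAt_id q).const_sub p).pow 2
        refine this.congr_deriv ?_
        simp
      have a2 : HasDerivAt (fun q => (q - n) ^ 2) (2 * (q - n)) q := by
        have := ((hasDerivAt_id q).sub_const n).pow 2
        refine this.congr_deriv ?_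
        simp
      exact a1.add a2
    have d2 := (d1.inv (hD q).ne').const_mul (y ^ 2)
    have d3 : HasDerivAt (fun q => 2 * ((q - n) / y) - 1) (2 * (1 / y)) q :=
      ((((hasDerivAt_id q).sub_const n).div_const y).const_mul 2).sub_const 1
    have d4 := ((d2.const_mul (-(1 / 4))).add (d3.arctan.const_mul (1 / 2))).const_mul y⁻¹
    have e0 : (fun q => y⁻¹ * (-(1 / 4) * (y ^ 2 / ((p - q) ^ 2 + (q - n) ^ 2))
        + 1 / 2 * Real.arctan (2 * ((q - n) / y) - 1)))
        = fun q => y⁻¹ * (-(1 / 4) * (y ^ 2 * ((p - q) ^ 2 + (q - n) ^ 2)⁻¹)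
        + 1 / 2 * Real.arctan (2 * ((q - n) / y) - 1)) := by
      funext q; rw [div_eq_mul_inv (y ^ 2)]
    rw [e0]
    refine d4.congr_deriv ?_
    have hDq := (hD q).ne'
    have e1 : 1 + (2 * ((q - n) / y) - 1) ^ 2 = 2 * ((p - q) ^ 2 + (q - n) ^ 2) / y ^ 2 := by
      have : p = y + n := by rw [hy]; ring
      rw [this]
      field_simp
      ring
    rw [e1]
    have hyp : p = y + n := by rw [hy]; ring
    rw [hyp] at hDq ⊢
    field_simp
    ring
  have hc : IntervalIntegrable (fun q => ((q - n) / ((p - q) ^ 2 + (q - n) ^ 2)) ^ 2)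
      volume n p := by
    apply Continuous.intervalIntegrable
    refine (Continuous.div (by fun_prop) (by fun_prop) fun q => (hD q).ne').pow 2
  rw [intervalIntegral.integral_eq_sub_of_hasDerivAt hder hc]
  have e1 : 2 * ((p - n) / y) - 1 = 1 := by rw [← hy, div_self hy0.ne']; ring
  have e2 : 2 * ((n - n) / y) - 1 = -1 := by rw [sub_self, zero_div]; ring
  rw [e1, e2, Real.arctan_neg, Real.arctan_one, ← hy]
  simp only [sub_self]
  field_simp
  ring

theorem int_dn {n p : ℝ} (hnp : n < p) :
    ∫ q in n..p, ((p - q) / ((p - q) ^ 2 + (q - n) ^ 2)) ^ 2 = Real.pi / (4 * (p - n)) := by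
  have h := intervalIntegral.integral_comp_sub_left (a := n) (b := p)
    (fun q => ((q - n) / ((p - q) ^ 2 + (q - n) ^ 2)) ^ 2) (n + p)
  have e : ∀ q, ((n + p - q - n) / ((p - (n + p - q)) ^ 2 + (n + p - q - n) ^ 2)) ^ 2
      = ((p - q) / ((p - q) ^ 2 + (q - n) ^ 2)) ^ 2 := by
    intro q; congr 1; congr 1 <;> ring
  simp_rw [e] at h
  rw [h]
  have e1 : n + p - p = n := by ring
  have e2 : n + p - n = p := by ring
  rw [e1, e2]
  exact int_up hnp

end Pool.Agent.Q176.PA
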