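import Pool.Agent.Q176.PA.P1

/-!
The inequality on the line with the constant `4 / π`.
-/

set_option autoImplicit false

open MeasureTheory Set Filter Topology

namespace Pool.Agent.Q176.PA

open Pool.Agent.TH340.FF

variable {f f' : ℝ → ℝ} {R : ℝ}

/-- the integral of the square of the angular velocity over the slice -/
theorem slice_av (h : Dat f f' R) (s : ℝ) :
    IntegrableOn (fun q => av f f' R s q ^ 2) (Ioo (N f f' R s) (P f f' R s)) ∧
    ∫ q in Ioo (N f f' R s) (P f f' R s), av f f' R s q ^ 2 ≤ Real.pi * f' s ^ 2 := by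
  rcases le_or_gt (P f f' R s) (N f f' R s) with h0 | h0
  · rw [Ioo_eq_empty (not_lt.2 h0)]
    simp only [integrableOn_empty, Measure.restrict_empty, integral_zero_measure, true_and]
    have := Real.pi_pos
    positivity
  set n := N f f' R s with hn
  set p := P f f' R s with hp
  have hy : p - n = f s ^ 2 := h.sub_eq s
  have hy0 : 0 < p - n := by linarith
  have hD : ∀ q, 0 < (p - q) ^ 2 + (q - n) ^ 2 := by
    intro q
    nlinarith [sq_nonneg ((p - q) - (q - n)), sq_nonneg ((p - q) + (q - n)), mul_pos hy0 hy0]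
  have e : ∀ q, av f f' R s q ^ 2
      = dp f f' s ^ 2 * ((q - n) / ((p - q) ^ 2 + (q - n) ^ 2)) ^ 2
        + dn f f' s ^ 2 * ((p - q) / ((p - q) ^ 2 + (q - n) ^ 2)) ^ 2 := by
    intro q
    unfold av dd2
    rw [← hn, ← hp]
    have h1 := dp_mul_dn f f' s
    have h2 := (hD q).ne'
    have h3 : (dp f f' s * (q - n) + dn f f' s * (p - q)) ^ 2
        = dp f f' s ^ 2 * (q - n) ^ 2 + dn f f' s ^ 2 * (p - q) ^ 2 := by
      linear_combination 2 * (q - n) * (p - q) * h1
    rw [div_pow, div_pow, div_pow, h3]
    ring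
  have c1 : Continuous fun q => ((q - n) / ((p - q) ^ 2 + (q - n) ^ 2)) ^ 2 :=
    (Continuous.div (by fun_prop) (by fun_prop) fun q => (hD q).ne').pow 2
  have c2 : Continuous fun q => ((p - q) / ((p - q) ^ 2 + (q - n) ^ 2)) ^ 2 :=
    (Continuous.div (by fun_prop) (by fun_prop) fun q => (hD q).ne').pow 2
  have hc : Continuous fun q => av f f' R s q ^ 2 := by
    simp_rw [e]
    exact (continuous_const.mul c1).add (continuous_const.mul c2)
  refine ⟨(hc.integrableOn_Icc).mono_set Ioo_subset_Icc_self, ?_⟩
  rw [← integral_Ioc_eq_integral_Ioo, ← intervalIntegral.integral_of_le h0.le]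
  simp_rw [e]
  have k1 : IntervalIntegrable
      (fun q => dp f f' s ^ 2 * ((q - n) / ((p - q) ^ 2 + (q - n) ^ 2)) ^ 2) volume n p :=
    (c1.intervalIntegrable n p).const_mul _
  have k2 : IntervalIntegrable
      (fun q => dn f f' s ^ 2 * ((p - q) / ((p - q) ^ 2 + (q - n) ^ 2)) ^ 2) volume n p :=
    (c2.intervalIntegrable n p).const_mul _
  rw [intervalIntegral.integral_add k1 k2, intervalIntegral.integral_const_mul,
    intervalIntegral.integral_const_mul, int_up h0, int_dn h0, ← add_mul, dp_sq_add, hy]
  have h4 : f s ^ 2 ≠ 0 := by rw [← hy]; exact hy0.ne'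
  have h5 : f s ≠ 0 := fun h0 => h4 (by rw [h0]; norm_num)
  apply le_of_eq
  field_simp

/-- The inequality on the line -/
theorem ineq2 (h : Dat f f' R) {g g' : ℝ → ℝ} (hg : ∀ s, HasDerivAt g (g' s) s)
    (hg' : Continuous g') {κ : ℝ} (hκ : 0 ≤ κ) (hp : ∀ a b, a < b → g a - g b ≤ κ / (b - a)) :
    -∫ s, g' s * f s ^ 2 ≤ 4 / Real.pi * κ * ∫ s, f' s ^ 2 := by
  have hEm : MeasurableSet (E f f' R) := h.isOpen_E.measurableSet
  have hpi := Real.pi_pos
  set F1 : ℝ × ℝ → ℝ := (E f f' R).indicator fun z => g' z.1 with hF1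
  set F2 : ℝ × ℝ → ℝ := (E f f' R).indicator fun z => av f f' R z.1 z.2 ^ 2 with hF2
  have m1 : Measurable F1 := (hg'.measurable.comp measurable_fst).indicator hEm
  have mav : Measurable fun z : ℝ × ℝ => av f f' R z.1 z.2 ^ 2 := by
    unfold av dd2
    have a1 : Continuous fun z : ℝ × ℝ => dp f f' z.1 * (z.2 - N f f' R z.1)
        + dn f f' z.1 * (P f f' R z.1 - z.2) :=
      ((h.cont_dp.comp continuous_fst).mul (continuous_snd.sub (h.contN.comp continuous_fst))).add
        ((h.cont_dn.comp continuous_fst).mul ((h.contP.comp continuous_fst).sub continuous_snd))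
    have a2 : Continuous fun z : ℝ × ℝ => (P f f' R z.1 - z.2) ^ 2
        + (z.2 - N f f' R z.1) ^ 2 :=
      (((h.contP.comp continuous_fst).sub continuous_snd).pow 2).add
        ((continuous_snd.sub (h.contN.comp continuous_fst)).pow 2)
    exact (a1.measurable.div a2.measurable).pow_const 2
  have m2 : Measurable F2 := mav.indicator hEm
  have s1 : ∀ s q, F1 (s, q) = (E f f' R).indicator (fun _ => g' s) (s, q) := fun s q => by
    simp only [hF1, indicator]
  -- integrability of the first one
  obtain ⟨C, hC⟩ := (isCompact_Icc (a := -R) (b := R)).exists_bound_of_continuousOn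
    hg'.continuousOn
  have i1 : Integrable F1 (volume.prod volume) := by
    have hb : Integrable ((Ioo (-R) R ×ˢ Ioo 0 (P f f' R R)).indicator fun _ : ℝ × ℝ => C)
        (volume.prod volume) := by
      refine (integrable_indicator_iff (measurableSet_Ioo.prod measurableSet_Ioo)).2 ?_
      refine integrableOn_const ?_
      rw [Measure.prod_prod]
      exact (ENNReal.mul_lt_top (by simp) (by simp)).ne
    refine hb.mono' m1.aestronglyMeasurable (Eventually.of_forall fun z => ?_)
    by_cases hz : z ∈ E f f' R
    · have hz' := h.E_sub hz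
      simp only [hF1]
      rw [indicator_of_mem hz, indicator_of_mem hz']
      exact hC _ (Ioo_subset_Icc_self hz'.1)
    · simp only [hF1]
      rw [indicator_of_notMem hz, norm_zero]
      refine indicator_nonneg (fun _ _ => ?_) _
      exact (norm_nonneg _).trans (hC 0 ⟨by linarith [h.pos], h.pos.le⟩)
  -- and of the second
  have hfi : Integrable fun s => f' s ^ 2 := by
    refine Continuous.integrable_of_hasCompactSupport (h.cont.pow 2) ?_
    refine HasCompactSupport.of_support_subset_isCompact (isCompact_Icc (a := -R) (b := R)) ?_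
    intro s hs
    by_contra hcon
    apply hs
    have h1 : R < |s| := by
      by_contra h2
      push Not at h2
      exact hcon ⟨(abs_le.1 h2).1, (abs_le.1 h2).2⟩
    simp [h.supp' h1]
  have sl2 : ∀ s, (fun q => F2 (s, q))
      = (Ioo (N f f' R s) (P f f' R s)).indicator fun q => av f f' R s q ^ 2 := by
    intro s
    funext q
    simp only [hF2]
    by_cases hq : q ∈ Ioo (N f f' R s) (P f f' R s)
    · rw [indicator_of_mem hq, indicator_of_mem (show (s, q) ∈ E f f' R from hq)]
    · rw [indicator_of_notMem hq, indicator_of_notMem (show (s, q) ∉ E f f' R from hq)]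
  have hF20 : ∀ z, 0 ≤ F2 z := fun z => indicator_nonneg (fun _ _ => sq_nonneg _) _
  have hsl : ∀ s, ∫ q, F2 (s, q) ≤ Real.pi * f' s ^ 2 := by
    intro s
    rw [sl2, integral_indicator measurableSet_Ioo]
    exact (slice_av h s).2
  have i2 : Integrable F2 (volume.prod volume) := by
    rw [integrable_prod_iff m2.aestronglyMeasurable]
    constructor
    · refine Eventually.of_forall fun s => ?_
      rw [sl2, integrable_indicator_iff measurableSet_Ioo]
      exact (slice_av h s).1
    · have e : (fun s => ∫ q, ‖F2 (s, q)‖) = fun s => ∫ q, F2 (s, q) := by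
        funext s
        congr 1; funext q
        exact Real.norm_of_nonneg (hF20 _)
      rw [e]
      refine (hfi.const_mul Real.pi).mono' ?_ (Eventually.of_forall fun s => ?_)
      · exact m2.stronglyMeasurable.integral_prod_right'.aestronglyMeasurable
      · rw [Real.norm_of_nonneg (integral_nonneg fun q => hF20 _)]
        exact hsl s
  -- Fubini
  have e1 : ∫ s, g' s * f s ^ 2 = ∫ q, ∫ s, F1 (s, q) := by
    rw [← integral_prod_symm F1 i1, integral_prod F1 i1]
    refine integral_congr_ae (Eventually.of_forall fun s => ?_)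
    show g' s * f s ^ 2 = ∫ q, F1 (s, q)
    rw [← h.slice_q s (g' s)]
    refine integral_congr_ae (Eventually.of_forall fun q => ?_)
    exact (s1 s q).symm
  have e2 : ∫ q, ∫ s, F2 (s, q) = ∫ s, ∫ q, F2 (s, q) := by
    rw [← integral_prod_symm F2 i2, integral_prod F2 i2]
  have j1 : Integrable fun q => ∫ s, F1 (s, q) := i1.integral_prod_right
  have j2 : Integrable fun q => ∫ s, F2 (s, q) := i2.integral_prod_right
  have j3 : Integrable fun s => ∫ q, F2 (s, q) := i2.integral_prod_left
  have a2 : ∀ᵐ q, Integrable fun s => F2 (s, q) := i2.prod_left_ae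
  set K : ℝ := 4 / Real.pi ^ 2 * κ with hK
  have hK0 : 0 ≤ K := by positivity
  -- the inequality for almost every `q`
  have key : ∀ᵐ q, -∫ s, F1 (s, q) ≤ K * ∫ s, F2 (s, q) := by
    filter_upwards [a2] with q hq
    set I : Set ℝ := {s | N f f' R s < q ∧ q < P f f' R s} with hI
    have t1 : (fun s => F1 (s, q)) = I.indicator g' := by
      funext s
      simp only [hF1]
      by_cases hs : s ∈ I
      · rw [indicator_of_mem hs, indicator_of_mem (show (s, q) ∈ E f f' R from hs)]
      · rw [indicator_of_notMem hs, indicator_of_notMem (show (s, q) ∉ E f f' R from hs)]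
    have t2 : (fun s => F2 (s, q)) = I.indicator fun s => av f f' R s q ^ 2 := by
      funext s
      simp only [hF2]
      by_cases hs : s ∈ I
      · rw [indicator_of_mem hs, indicator_of_mem (show (s, q) ∈ E f f' R from hs)]
      · rw [indicator_of_notMem hs, indicator_of_notMem (show (s, q) ∉ E f f' R from hs)]
    rw [t1, t2]
    rw [t2] at hq
    rcases h.slice q with h0 | ⟨a, b, hab, hIab, hPa, hNb⟩
    · rw [← hI] at h0
      rw [h0]
      simp
    · rw [← hI] at hIab
      rw [hIab] at hq ⊢
      rw [integral_indicator measurableSet_Ioo, integral_indicator measurableSet_Ioo]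
      rw [integrable_indicator_iff measurableSet_Ioo] at hq
      have hk := key2 h hab hPa hNb (fun s hs => by
        rw [← hIab] at hs; exact hs) hq
      have e3 : ∫ s in Ioo a b, g' s = g b - g a := by
        rw [← integral_Ioc_eq_integral_Ioo, ← intervalIntegral.integral_of_le hab.le]
        exact intervalIntegral.integral_eq_sub_of_hasDerivAt (fun s _ => hg s)
          (hg'.intervalIntegrable _ _)
      rw [e3]
      have hba : 0 < b - a := by linarith
      calc -(g b - g a) = g a - g b := by ring
        _ ≤ κ / (b - a) := hp a b hab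
        _ ≤ K * ∫ s in Ioo a b, av f f' R s q ^ 2 := by
          rw [div_le_iff₀ hba]
          calc κ = K * (Real.pi / 2) ^ 2 := by rw [hK]; field_simp; norm_num
            _ ≤ K * ((b - a) * ∫ s in Ioo a b, av f f' R s q ^ 2) := by gcongr
            _ = _ := by ring
  calc -∫ s, g' s * f s ^ 2 = ∫ q, -∫ s, F1 (s, q) := by rw [e1, integral_neg]
    _ ≤ ∫ q, K * ∫ s, F2 (s, q) := integral_mono_ae j1.neg (j2.const_mul _) key
    _ = K * ∫ s, ∫ q, F2 (s, q) := by rw [integral_const_mul, e2]
    _ ≤ K * ∫ s, Real.pi * f' s ^ 2 := by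
      have := integral_mono j3 (hfi.const_mul Real.pi) hsl
      gcongr
    _ = 4 / Real.pi * κ * ∫ s, f' s ^ 2 := by
      rw [integral_const_mul, hK]
      field_simp

end Pool.Agent.Q176.PA
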