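import Pool.Agent.Q176.PA.P2

/-!
The inequality for periodic functions.
-/

set_option autoImplicit false

open MeasureTheory Set Filter Topology
open scoped ContDiff

namespace Pool.Agent.Q176.PA

open Pool.Agent.TH340.FF

theorem per_bdd {g : ℝ → ℝ} (hc : Continuous g) (hp : Function.Periodic g 1) :
    ∃ C : ℝ, 0 ≤ C ∧ ∀ s, |g s| ≤ C := by
  obtain ⟨C, hC⟩ := (isCompact_Icc (a := (0 : ℝ)) (b := 1)).exists_bound_of_continuousOn
    hc.continuousOn
  refine ⟨C, (norm_nonneg _).trans (hC 0 ⟨le_rfl, zero_le_one⟩), fun s => ?_⟩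
  obtain ⟨y, hy, he⟩ := hp.exists_mem_Ico₀ one_pos s
  rw [he]
  exact hC y (Ico_subset_Icc_self hy)

theorem per_int {g : ℝ → ℝ} (hc : Continuous g) (hp : Function.Periodic g 1) (n : ℕ) :
    ∫ s in (-(n : ℝ))..n, g s = 2 * n * ∫ s in (0 : ℝ)..1, g s := by
  have h := hp.intervalIntegral_add_zsmul_eq (2 * n : ℤ) (-(n : ℝ))
    fun a b => hc.intervalIntegrable a b
  have e1 : -(n : ℝ) + (2 * n : ℤ) • (1 : ℝ) = n := by
    rw [zsmul_eq_mul]; push_cast; ring
  have e2 := hp.intervalIntegral_add_eq (-(n : ℝ)) 0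
  rw [e1, e2, zsmul_eq_mul] at h
  rw [h]
  push_cast
  simp

theorem side {G G0 : ℝ → ℝ} (hG : Continuous G) (hG0 : Continuous G0)
    (hp : Function.Periodic G0 1) {n : ℕ} {C : ℝ}
    (h1 : ∀ s : ℝ, |s| ≤ n → G s = G0 s) (h2 : ∀ s : ℝ, (n : ℝ) + 1 ≤ |s| → G s = 0)
    (h3 : ∀ s, |G s| ≤ C) : |(∫ s, G s) - 2 * n * ∫ s in (0 : ℝ)..1, G0 s| ≤ 2 * C := by
  have hn : (0 : ℝ) ≤ n := Nat.cast_nonneg n
  have e1 : ∫ s, G s = ∫ s in (-((n : ℝ) + 1))..((n : ℝ) + 1), G s := by
    refine (intervalIntegral.integral_eq_integral_of_support_subset fun s hs => ?_).symm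
    by_contra hcon
    apply hs
    apply h2
    by_contra h4
    push Not at h4
    exact hcon ⟨(abs_lt.1 h4).1, (abs_lt.1 h4).2.le⟩
  have i : ∀ a b, IntervalIntegrable G volume a b := fun a b => hG.intervalIntegrable a b
  rw [e1, ← intervalIntegral.integral_add_adjacent_intervals (i _ (-(n : ℝ))) (i _ _),
    ← intervalIntegral.integral_add_adjacent_intervals (i (-(n : ℝ)) n) (i _ _)]
  have e2 : ∫ s in (-(n : ℝ))..n, G s = 2 * n * ∫ s in (0 : ℝ)..1, G0 s := by
    rw [← per_int hG0 hp n]
    apply intervalIntegral.integral_congr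
    intro s hs
    rw [uIcc_of_le (by linarith)] at hs
    exact h1 s (abs_le.2 hs)
  rw [e2]
  have b1 : |∫ s in (-((n : ℝ) + 1))..(-(n : ℝ)), G s| ≤ C := by
    have := intervalIntegral.norm_integral_le_of_norm_le_const (f := G) (C := C)
      (a := -((n : ℝ) + 1)) (b := -(n : ℝ)) (fun s _ => h3 s)
    simpa using this
  have b2 : |∫ s in (n : ℝ)..((n : ℝ) + 1), G s| ≤ C := by
    have := intervalIntegral.norm_integral_le_of_norm_le_const (f := G) (C := C)
      (a := (n : ℝ)) (b := (n : ℝ) + 1) (fun s _ => h3 s)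
    simpa using this
  rw [abs_le] at b1 b2 ⊢
  constructor <;> linarith [b1.1, b1.2, b2.1, b2.2]

/-- a smooth step -/
noncomputable def st (x : ℝ) : ℝ := Real.smoothTransition x

theorem st_contDiff : ContDiff ℝ ∞ st := Real.smoothTransition.contDiff

theorem st_bdd : ∃ C : ℝ, 0 ≤ C ∧ ∀ x, |deriv st x| ≤ C := by
  have hc : Continuous (deriv st) := st_contDiff.continuous_deriv (by norm_cast)
  obtain ⟨C, hC⟩ := (isCompact_Icc (a := (0 : ℝ)) (b := 1)).exists_bound_of_continuousOn
    hc.continuousOn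
  have hC0 : 0 ≤ C := (norm_nonneg _).trans (hC 0 ⟨le_rfl, zero_le_one⟩)
  refine ⟨C, hC0, fun x => ?_⟩
  rcases lt_or_ge x 0 with h | h
  · have : st =ᶠ[𝓝 x] fun _ => 0 := by
      filter_upwards [Iio_mem_nhds h] with y hy
      exact Real.smoothTransition.zero_of_nonpos (le_of_lt hy)
    rw [this.deriv_eq]; simpa using hC0
  rcases lt_or_ge 1 x with h' | h'
  · have : st =ᶠ[𝓝 x] fun _ => 1 := by
      filter_upwards [Ioi_mem_nhds h'] with y hy
      exact Real.smoothTransition.one_of_one_le (le_of_lt hy)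
    rw [this.deriv_eq]; simpa using hC0
  · exact hC x ⟨h, h'⟩

/-- the cutoff function -/
noncomputable def ch (n : ℕ) (s : ℝ) : ℝ := st (n + 1 + s) * st (n + 1 - s)

/-- its derivative -/
noncomputable def ch' (n : ℕ) (s : ℝ) : ℝ :=
  deriv st (n + 1 + s) * st (n + 1 - s) - st (n + 1 + s) * deriv st (n + 1 - s)

theorem st_01 (x : ℝ) : 0 ≤ st x ∧ st x ≤ 1 :=
  ⟨Real.smoothTransition.nonneg x, Real.smoothTransition.le_one x⟩

theorem hasDerivAt_st (x : ℝ) : HasDerivAt st (deriv st x) x :=
  ((st_contDiff.differentiable (by norm_cast)) x).hasDerivAt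

theorem ch_deriv (n : ℕ) (s : ℝ) : HasDerivAt (ch n) (ch' n s) s := by
  have h1 : HasDerivAt (fun s => st (n + 1 + s)) (deriv st (n + 1 + s)) s := by
    have := (hasDerivAt_st (n + 1 + s)).comp s ((hasDerivAt_id s).const_add ((n : ℝ) + 1))
    simpa [Function.comp_def] using this
  have h2 : HasDerivAt (fun s => st (n + 1 - s)) (-deriv st (n + 1 - s)) s := by
    have := (hasDerivAt_st (n + 1 - s)).comp s ((hasDerivAt_id s).const_sub ((n : ℝ) + 1))
    simpa [Function.comp_def] using this
  refine (h1.mul h2).congr_deriv ?_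
  unfold ch'
  ring

theorem ch_one {n : ℕ} {s : ℝ} (h : |s| ≤ n) : ch n s = 1 := by
  have := abs_le.1 h
  unfold ch st
  rw [Real.smoothTransition.one_of_one_le (by linarith),
    Real.smoothTransition.one_of_one_le (by linarith), one_mul]

theorem ch_zero {n : ℕ} {s : ℝ} (h : (n : ℝ) + 1 ≤ |s|) : ch n s = 0 := by
  unfold ch st
  rcases le_abs.1 h with h | h
  · rw [Real.smoothTransition.zero_of_nonpos (x := n + 1 - s) (by linarith), mul_zero]
  · rw [Real.smoothTransition.zero_of_nonpos (x := n + 1 + s) (by linarith), zero_mul]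

theorem ch'_zero_in {n : ℕ} {s : ℝ} (h : |s| ≤ n) : ch' n s = 0 := by
  unfold ch'
  have := abs_le.1 h
  -- at the end points the argument of the step is at least one, where its derivative vanishes
  have hd : ∀ x : ℝ, 1 ≤ x → deriv st x = 0 := by
    intro x hx
    have hcd : Continuous (deriv st) := st_contDiff.continuous_deriv (by norm_cast)
    have hz : ∀ y : ℝ, 1 < y → deriv st y = 0 := by
      intro y hy
      have : st =ᶠ[𝓝 y] fun _ => 1 := by
        filter_upwards [Ioi_mem_nhds hy] with z hz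
        exact Real.smoothTransition.one_of_one_le (le_of_lt hz)
      rw [this.deriv_eq]; simp
    have h1 : Tendsto (deriv st) (𝓝[>] x) (𝓝 (deriv st x)) :=
      (hcd.tendsto x).mono_left nhdsWithin_le_nhds
    have h2 : Tendsto (deriv st) (𝓝[>] x) (𝓝 0) := by
      refine tendsto_const_nhds.congr' ?_
      filter_upwards [self_mem_nhdsWithin] with y hy
      exact (hz y (hx.trans_lt hy)).symm
    exact tendsto_nhds_unique h1 h2
  rw [hd _ (by linarith), hd _ (by linarith)]
  ring

theorem ch'_cont (n : ℕ) : Continuous (ch' n) := by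
  have hcd : Continuous (deriv st) := st_contDiff.continuous_deriv (by norm_cast)
  have hcs : Continuous st := st_contDiff.continuous
  unfold ch'
  exact ((hcd.comp (by fun_prop)).mul (hcs.comp (by fun_prop))).sub
    ((hcs.comp (by fun_prop)).mul (hcd.comp (by fun_prop)))

theorem ch_cont (n : ℕ) : Continuous (ch n) := by
  have hcs : Continuous st := st_contDiff.continuous
  unfold ch
  exact (hcs.comp (by fun_prop)).mul (hcs.comp (by fun_prop))

theorem ch_le (n : ℕ) (s : ℝ) : |ch n s| ≤ 1 := by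
  unfold ch
  have h1 := st_01 (n + 1 + s)
  have h2 := st_01 (n + 1 - s)
  rw [abs_of_nonneg (mul_nonneg h1.1 h2.1)]
  exact mul_le_one₀ h1.2 h2.1 h2.2

theorem ch'_le {C : ℝ} (hC : ∀ x, |deriv st x| ≤ C) (n : ℕ) (s : ℝ) : |ch' n s| ≤ 2 * C := by
  unfold ch'
  have h1 := st_01 (n + 1 + s)
  have h2 := st_01 (n + 1 - s)
  have hC0 : 0 ≤ C := (abs_nonneg _).trans (hC 0)
  have a1 : |deriv st (n + 1 + s) * st (n + 1 - s)| ≤ C := by
    rw [abs_mul, abs_of_nonneg h2.1]
    calc |deriv st (n + 1 + s)| * st (n + 1 - s) ≤ C * 1 :=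
          mul_le_mul (hC _) h2.2 h2.1 hC0
      _ = C := mul_one C
  have a2 : |st (n + 1 + s) * deriv st (n + 1 - s)| ≤ C := by
    rw [abs_mul, abs_of_nonneg h1.1]
    calc st (n + 1 + s) * |deriv st (n + 1 - s)| ≤ 1 * C :=
          mul_le_mul h1.2 (hC _) (abs_nonneg _) zero_le_one
      _ = C := one_mul C
  calc _ ≤ |deriv st (n + 1 + s) * st (n + 1 - s)| + |st (n + 1 + s) * deriv st (n + 1 - s)| :=
        abs_sub _ _
    _ ≤ 2 * C := by linarith

/-- The inequality for periodic functions. -/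
theorem per_line {f f' h h' : ℝ → ℝ} (hf : ∀ s, HasDerivAt f (f' s) s) (hf' : Continuous f')
    (pf : Function.Periodic f 1) (pf' : Function.Periodic f' 1)
    (hh : ∀ s, HasDerivAt h (h' s) s) (hh' : Continuous h') (ph' : Function.Periodic h' 1)
    {κ b : ℝ} (hκ : 0 ≤ κ) (hp : ∀ a c, a < c → h a - h c ≤ κ / (c - a) + b * (c - a)) :
    -∫ s in (0 : ℝ)..1, h' s * f s ^ 2 ≤ 4 / Real.pi * κ * (∫ s in (0 : ℝ)..1, f' s ^ 2)
      + b * ∫ s in (0 : ℝ)..1, f s ^ 2 := by
  have hpi := Real.pi_pos
  have cf : Continuous f := continuous_iff_continuousAt.2 fun s => (hf s).continuousAt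
  obtain ⟨C1, hC1, b1⟩ := per_bdd cf pf
  obtain ⟨C2, hC2, b2⟩ := per_bdd hf' pf'
  obtain ⟨C3, hC3, b3⟩ := per_bdd hh' ph'
  obtain ⟨C0, hC0, b0⟩ := st_bdd
  set I1 := ∫ s in (0 : ℝ)..1, h' s * f s ^ 2 with hI1
  set I2 := ∫ s in (0 : ℝ)..1, f' s ^ 2 with hI2
  set I3 := ∫ s in (0 : ℝ)..1, f s ^ 2 with hI3
  set K := 4 / Real.pi * κ with hK
  have hK0 : 0 ≤ K := by positivity
  set D1 := C3 * C1 ^ 2 with hD1
  set D2 := (C2 + C1 * (2 * C0)) ^ 2 with hD2
  set D3 := C1 ^ 2 with hD3
  have main : ∀ n : ℕ, 2 * n * (-I1 - K * I2 - b * I3) ≤ 2 * (D1 + K * D2 + |b| * D3) := by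
    intro n
    set F : ℝ → ℝ := fun s => f s * ch n s with hF
    set F' : ℝ → ℝ := fun s => f' s * ch n s + f s * ch' n s with hF'
    have hdat : Dat F F' ((n : ℝ) + 1) := by
      refine ⟨by positivity, fun s => ?_, ?_, fun s hs => ?_⟩
      · exact (hf s).mul (ch_deriv n s)
      · exact (hf'.mul (ch_cont n)).add (cf.mul (ch'_cont n))
      · simp only [hF]; rw [ch_zero hs, mul_zero]
    have hg : ∀ s, HasDerivAt (fun s => h s + b * s) (h' s + b) s := by
      intro s
      have h8 := (hasDerivAt_id s).const_mul b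
      rw [mul_one] at h8
      exact (hh s).add h8
    have hin := ineq2 hdat hg (hh'.add continuous_const) hκ (fun a c hac => by
      have := hp a c hac
      linarith)
    rw [← hK] at hin
    have aF : ∀ s, |F s| ≤ C1 := by
      intro s
      simp only [hF]
      rw [abs_mul]
      calc |f s| * |ch n s| ≤ C1 * 1 := mul_le_mul (b1 s) (ch_le n s) (abs_nonneg _) hC1
        _ = C1 := mul_one _
    have aF' : ∀ s, |F' s| ≤ C2 + C1 * (2 * C0) := by
      intro s
      simp only [hF']
      refine (abs_add_le _ _).trans ?_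
      rw [abs_mul, abs_mul]
      have x1 : |f' s| * |ch n s| ≤ C2 * 1 :=
        mul_le_mul (b2 s) (ch_le n s) (abs_nonneg _) hC2
      have x2 : |f s| * |ch' n s| ≤ C1 * (2 * C0) :=
        mul_le_mul (b1 s) (ch'_le b0 n s) (abs_nonneg _) hC1
      linarith
    have cF : Continuous F := cf.mul (ch_cont n)
    have cF' : Continuous F' := (hf'.mul (ch_cont n)).add (cf.mul (ch'_cont n))
    have z0 : ∀ s, (n : ℝ) + 1 ≤ |s| → F s = 0 := fun s hs => by
      simp only [hF]; rw [ch_zero hs, mul_zero]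
    have z0' : ∀ s, (n : ℝ) + 1 ≤ |s| → F' s = 0 := by
      intro s hs
      have hz : ∀ s, (n : ℝ) + 1 < |s| → F' s = 0 := fun s hs => hdat.supp' hs
      rcases hs.eq_or_lt with h0 | h0
      · -- at the end points `F ≥ 0`-type argument is not needed: use continuity
        have hcl : F' s = 0 := by
          rcases le_total 0 s with h5 | h5
          · have hs1 : s = n + 1 := by rw [h0, abs_of_nonneg h5]
            have h1 : Tendsto F' (𝓝[>] s) (𝓝 (F' s)) :=
              (cF'.tendsto s).mono_left nhdsWithin_le_nhds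
            have h2 : Tendsto F' (𝓝[>] s) (𝓝 0) := by
              refine tendsto_const_nhds.congr' ?_
              filter_upwards [self_mem_nhdsWithin] with y hy
              refine (hz y ?_).symm
              have hy' : s < y := hy
              rw [abs_of_nonneg (h5.trans hy'.le)]
              linarith
            exact tendsto_nhds_unique h1 h2
          · have hs1 : s = -(n + 1) := by
              rw [h0, abs_of_nonpos h5]; ring
            have h1 : Tendsto F' (𝓝[<] s) (𝓝 (F' s)) :=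
              (cF'.tendsto s).mono_left nhdsWithin_le_nhds
            have h2 : Tendsto F' (𝓝[<] s) (𝓝 0) := by
              refine tendsto_const_nhds.congr' ?_
              filter_upwards [self_mem_nhdsWithin] with y hy
              refine (hz y ?_).symm
              have hy' : y < s := hy
              rw [abs_of_nonpos (hy'.le.trans h5)]
              linarith
            exact tendsto_nhds_unique h1 h2
        exact hcl
      · exact hz s h0
    have s1 := side (G := fun s => h' s * F s ^ 2) (G0 := fun s => h' s * f s ^ 2) (n := n)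
      (C := D1) (hh'.mul (cF.pow 2)) (hh'.mul (cf.pow 2))
      (fun s => by simp only [ph' s, pf s])
      (fun s hs => by simp only [hF]; rw [ch_one hs, mul_one])
      (fun s hs => by rw [z0 s hs]; ring)
      (fun s => by
        rw [abs_mul, abs_pow, hD1, hD3]
        have := aF s
        have := b3 s
        gcongr)
    have s2 := side (G := fun s => F' s ^ 2) (G0 := fun s => f' s ^ 2) (n := n)
      (C := D2) (cF'.pow 2) (hf'.pow 2)
      (fun s => by simp only [pf' s])
      (fun s hs => by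
        simp only [hF']; rw [ch_one hs, ch'_zero_in hs, mul_one, mul_zero, add_zero])
      (fun s hs => by rw [z0' s hs]; ring)
      (fun s => by
        rw [abs_pow, hD2]
        have := aF' s
        gcongr)
    have s3 := side (G := fun s => F s ^ 2) (G0 := fun s => f s ^ 2) (n := n)
      (C := D3) (cF.pow 2) (cf.pow 2)
      (fun s => by simp only [pf s])
      (fun s hs => by simp only [hF]; rw [ch_one hs, mul_one])
      (fun s hs => by rw [z0 s hs]; ring)
      (fun s => by
        rw [abs_pow, hD3]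
        have := aF s
        gcongr)
    rw [← hI1] at s1
    rw [← hI2] at s2
    rw [← hI3] at s3
    -- the left side
    have hcs : ∀ {G : ℝ → ℝ}, Continuous G → (∀ s, (n : ℝ) + 1 ≤ |s| → G s = 0) → Integrable G := by
      intro G hG hz
      refine hG.integrable_of_hasCompactSupport ?_
      refine HasCompactSupport.of_support_subset_isCompact
        (isCompact_Icc (a := -((n : ℝ) + 1)) (b := (n : ℝ) + 1)) fun s hs => ?_
      by_contra hcon
      apply hs
      apply hz
      by_contra h4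
      push Not at h4
      exact hcon ⟨(abs_lt.1 h4).1.le, (abs_lt.1 h4).2.le⟩
    have k1 : Integrable fun s => h' s * F s ^ 2 :=
      hcs (hh'.mul (cF.pow 2)) fun s hs => by rw [z0 s hs]; ring
    have k3 : Integrable fun s => F s ^ 2 :=
      hcs (cF.pow 2) fun s hs => by rw [z0 s hs]; ring
    have e : ∫ s, (h' s + b) * F s ^ 2 = (∫ s, h' s * F s ^ 2) + b * ∫ s, F s ^ 2 := by
      rw [← integral_const_mul, ← integral_add k1 (k3.const_mul b)]
      congr 1; funext s; ring
    rw [e] at hin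
    have t1 := (abs_le.1 s1).2
    have t2 := (abs_le.1 s2).2
    have t3 : b * ((∫ s, F s ^ 2) - 2 * n * I3) ≤ |b| * (2 * D3) := by
      calc b * ((∫ s, F s ^ 2) - 2 * n * I3) ≤ |b * ((∫ s, F s ^ 2) - 2 * n * I3)| :=
            le_abs_self _
        _ = |b| * |(∫ s, F s ^ 2) - 2 * n * I3| := abs_mul _ _
        _ ≤ _ := mul_le_mul_of_nonneg_left s3 (abs_nonneg _)
    have t3' : -(b * ((∫ s, F s ^ 2) - 2 * n * I3)) ≤ |b| * (2 * D3) := by
      calc -(b * ((∫ s, F s ^ 2) - 2 * n * I3)) ≤ |b * ((∫ s, F s ^ 2) - 2 * n * I3)| :=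
            neg_le_abs _
        _ = |b| * |(∫ s, F s ^ 2) - 2 * n * I3| := abs_mul _ _
        _ ≤ _ := mul_le_mul_of_nonneg_left s3 (abs_nonneg _)
    have t2' : K * (∫ s, F' s ^ 2) ≤ K * (2 * n * I2 + 2 * D2) :=
      mul_le_mul_of_nonneg_left (by linarith) hK0
    nlinarith
  by_contra hcon
  push Not at hcon
  have hpos : 0 < -I1 - K * I2 - b * I3 := by linarith
  obtain ⟨n, hn⟩ := exists_nat_gt ((D1 + K * D2 + |b| * D3) / (-I1 - K * I2 - b * I3))
  rw [div_lt_iff₀ hpos] at hn
  have := main n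
  linarith

end Pool.Agent.Q176.PA
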