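import Pool.Agent.Q176.PA.P3
import Pool.Agent.Q176.ES.F3

/-!
The inequality in a lattice direction on the torus.
-/

set_option autoImplicit false

open MeasureTheory Set Filter Topology H459R3.NS
open scoped ContDiff

namespace Pool.Agent.Q176.PA

/-- the real vector of a lattice vector -/
def rv (m : K3) : V := fun i => (m i : ℝ)

/-- the derivative in the direction of the lattice vector `m` -/
noncomputable def dD (m : K3) (g : V → ℝ) (x : V) : ℝ := ∑ j, (m j : ℝ) * pd j g x

theorem sp_dD {g : V → ℝ} (hg : SP g) (m : K3) : SP (dD m g) :=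
  SP.sum fun j _ => Pool.Agent.Q176.ES.SP.const_mul' (hg.pd j) _

theorem fderiv_eq {g : V → ℝ} (x y : V) : fderiv ℝ g x y = ∑ j, y j * pd j g x := by
  have h : y = ∑ j, y j • (Pi.single j (1 : ℝ) : V) := by
    funext i
    simp [Finset.sum_apply, Pi.single_apply]
  conv_lhs => rw [h]
  rw [map_sum]
  refine Finset.sum_congr rfl fun j _ => ?_
  rw [map_smul, smul_eq_mul]
  rfl

theorem sp_shift {g : V → ℝ} (hg : SP g) (y : V) : SP (fun x => g (x + y)) where
  smooth := hg.smooth.comp (contDiff_id.add contDiff_const)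
  per := fun j x => by
    show g (x + Pi.single j 1 + y) = g (x + y)
    rw [add_right_comm]
    exact hg.per j (x + y)

theorem pd_shift {g : V → ℝ} (j : Fin 3) (x y : V) :
    pd j (fun x => g (x + y)) x = pd j g (x + y) := by
  unfold pd
  rw [fderiv_comp_add_right]

/-- translation invariance -/
theorem int_shift {g : V → ℝ} (hg : SP g) (y : V) :
    ∫ x in cube, g (x + y) = ∫ x in cube, g x := by
  have hd : ∀ s : ℝ, HasDerivAt (fun s : ℝ => ∫ x in cube, g (x + s • y)) 0 s := by
    intro s
    set F : ℝ → V → ℝ := fun τ x => g (x + (τ + (s - 1)) • y) with hF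
    have hFs : ContDiffOn ℝ 1 (fun z : ℝ × V => F z.1 z.2) (Ioo 0 2 ×ˢ univ) := by
      have h1 : ContDiff ℝ 1 g := hg.smooth.of_le (by norm_cast)
      have h2 : ContDiff ℝ 1 (fun z : ℝ × V => z.2 + (z.1 + (s - 1)) • y) := by fun_prop
      exact (h1.comp h2).contDiffOn
    have h3 := hasDerivAt_int (T := 2) (F := F) hFs (t := 1) ⟨by norm_num, by norm_num⟩
    have h4 : ∀ x, deriv (fun τ => F τ x) 1 = ∑ j, y j * pd j (fun x => g (x + s • y)) x := by
      intro x
      have h5 : HasDerivAt (fun τ : ℝ => x + (τ + (s - 1)) • y) y 1 := by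
        have := (((hasDerivAt_id (1 : ℝ)).add_const (s - 1)).smul_const y).const_add x
        simpa using this
      have h6 : HasDerivAt (fun τ => F τ x) (fderiv ℝ g (x + (1 + (s - 1)) • y) y) 1 :=
        ((hg.diff _).hasFDerivAt).comp_hasDerivAt (1 : ℝ) h5
      rw [h6.deriv, fderiv_eq]
      refine Finset.sum_congr rfl fun j _ => ?_
      rw [pd_shift]
      congr 3
      rw [add_sub_cancel]
    have h7 : ∫ x in cube, deriv (fun τ => F τ x) 1 = 0 := by
      simp_rw [h4]
      rw [integral_finsetSum _ fun j _ => (Pool.Agent.Q176.ES.SP.const_mul'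
        ((sp_shift hg (s • y)).pd j) (y j)).int]
      refine Finset.sum_eq_zero fun j _ => ?_
      rw [integral_const_mul, integral_pd ((sp_shift hg (s • y)).smooth.of_le (by norm_cast))
        (sp_shift hg (s • y)).per j, mul_zero]
    rw [h7] at h3
    have h8 : HasDerivAt (fun σ : ℝ => σ - (s - 1)) 1 s := (hasDerivAt_id s).sub_const _
    have h3' : HasDerivAt (fun τ => ∫ x in cube, F τ x) 0 (s - (s - 1)) := by
      have : s - (s - 1) = 1 := by ring
      rw [this]; exact h3
    have h9 := h3'.comp s h8
    rw [zero_mul] at h9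
    refine h9.congr_of_eventuallyEq (Eventually.of_forall fun σ => ?_)
    simp only [hF, Function.comp]
    congr 1; funext x
    congr 3
    ring
  have h1 := is_const_of_deriv_eq_zero (f := fun s : ℝ => ∫ x in cube, g (x + s • y))
    (fun s => (hd s).differentiableAt) (fun s => (hd s).deriv) 1 0
  simpa using h1

theorem line_cont {g : V → ℝ} (hg : SP g) (m : K3) (x : V) :
    Continuous fun s : ℝ => g (x + s • rv m) :=
  hg.cont.comp (continuous_const.add (continuous_id.smul continuous_const))

/-- Integration over the lines in a lattice direction. -/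
theorem int_lines {g : V → ℝ} (hg : SP g) (m : K3) :
    ∫ x in cube, ∫ s in (0 : ℝ)..1, g (x + s • rv m) = ∫ x in cube, g x := by
  have := cube_finite
  have e1 : ∀ x, ∫ s in (0 : ℝ)..1, g (x + s • rv m) = ∫ s in Ioc (0 : ℝ) 1, g (x + s • rv m) :=
    fun x => intervalIntegral.integral_of_le zero_le_one
  simp_rw [e1]
  have hc : Continuous (fun z : V × ℝ => g (z.1 + z.2 • rv m)) :=
    hg.cont.comp (continuous_fst.add (continuous_snd.smul continuous_const))
  have hi : Integrable (Function.uncurry fun (x : V) (s : ℝ) => g (x + s • rv m))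
      ((volume.restrict cube).prod (volume.restrict (Ioc (0 : ℝ) 1))) := by
    rw [Measure.prod_restrict]
    have h1 : IntegrableOn (fun z : V × ℝ => g (z.1 + z.2 • rv m)) (cube ×ˢ Icc (0 : ℝ) 1)
        (volume.prod volume) := by
      refine hc.continuousOn.integrableOn_compact ?_
      exact isCompact_Icc.prod isCompact_Icc
    exact h1.mono_set (prod_mono_right Ioc_subset_Icc_self)
  rw [integral_integral_swap hi]
  have e2 : ∀ s : ℝ, ∫ x in cube, g (x + s • rv m) = ∫ x in cube, g x := fun s =>
    int_shift hg (s • rv m)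
  simp_rw [e2]
  simp

/-- The inequality in a lattice direction on the torus. -/
theorem dir_torus {h F : V → ℝ} (hh : SP h) (hF : SP F) (m : K3) {κ b : ℝ} (hκ : 0 ≤ κ)
    (hp : ∀ (x : V) (a c : ℝ), a < c →
      h (x + a • rv m) - h (x + c • rv m) ≤ κ / (c - a) + b * (c - a)) :
    -∫ x in cube, dD m h x * F x ^ 2
      ≤ 4 / Real.pi * κ * (∫ x in cube, dD m F x ^ 2) + b * ∫ x in cube, F x ^ 2 := by
  have hline : ∀ {g : V → ℝ}, SP g → ∀ (x : V) (s : ℝ),
      HasDerivAt (fun s : ℝ => g (x + s • rv m)) (dD m g (x + s • rv m)) s := by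
    intro g hg x s
    have h5 : HasDerivAt (fun τ : ℝ => x + τ • rv m) (rv m) s := by
      have := ((hasDerivAt_id s).smul_const (rv m)).const_add x
      simpa using this
    have h6 : HasDerivAt (fun s : ℝ => g (x + s • rv m)) (fderiv ℝ g (x + s • rv m) (rv m)) s :=
      ((hg.diff _).hasFDerivAt).comp_hasDerivAt s h5
    refine h6.congr_deriv ?_
    rw [fderiv_eq]
    rfl
  have hper : ∀ {g : V → ℝ}, SP g → ∀ x : V, Function.Periodic (fun s : ℝ => g (x + s • rv m)) 1 := by
    intro g hg x s
    show g (x + (s + 1) • rv m) = g (x + s • rv m)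
    have : x + (s + 1) • rv m = (x + s • rv m) + fun i => (m i : ℝ) := by
      rw [add_smul, one_smul, ← add_assoc]; rfl
    rw [this]
    exact hg.per.int m _
  have key : ∀ x : V, -∫ s in (0 : ℝ)..1, dD m h (x + s • rv m) * F (x + s • rv m) ^ 2
      ≤ 4 / Real.pi * κ * (∫ s in (0 : ℝ)..1, dD m F (x + s • rv m) ^ 2)
        + b * ∫ s in (0 : ℝ)..1, F (x + s • rv m) ^ 2 := fun x =>
    per_line (hline hF x) (line_cont (sp_dD hF m) m x) (hper hF x) (hper (sp_dD hF m) x)
      (hline hh x) (line_cont (sp_dD hh m) m x) (hper (sp_dD hh m) x) hκ (hp x)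
  have sF2 : SP (fun x => F x ^ 2) := by
    have := hF.mul hF
    have e : (fun x => F x * F x) = fun x => F x ^ 2 := by funext x; ring
    rwa [e] at this
  have sD2 : SP (fun x => dD m F x ^ 2) := by
    have := (sp_dD hF m).mul (sp_dD hF m)
    have e : (fun x => dD m F x * dD m F x) = fun x => dD m F x ^ 2 := by funext x; ring
    rwa [e] at this
  have shF : SP (fun x => dD m h x * F x ^ 2) := (sp_dD hh m).mul sF2
  have hci : ∀ {g : V → ℝ}, SP g → IntegrableOn (fun x => ∫ s in (0 : ℝ)..1, g (x + s • rv m)) cube := by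
    intro g hg
    refine integrableOn_cube ?_
    have hc : Continuous (Function.uncurry fun (x : V) (s : ℝ) => g (x + s • rv m)) :=
      hg.cont.comp (continuous_fst.add (continuous_snd.smul continuous_const))
    exact intervalIntegral.continuous_parametric_intervalIntegral_of_continuous' hc 0 1
  rw [← int_lines shF m, ← int_lines sD2 m, ← int_lines sF2 m, ← integral_neg,
    ← integral_const_mul, ← integral_const_mul, ← integral_add ((hci sD2).const_mul _)
    ((hci sF2).const_mul _)]
  exact integral_mono (hci shF).neg (((hci sD2).const_mul _).add ((hci sF2).const_mul _)) key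

end Pool.Agent.Q176.PA
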