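import Pool.Agent.Q176.PA.P4

/-!
The quadratic form of the strain of a periodic field with a one-sided bound for pairs.
-/

set_option autoImplicit false

open MeasureTheory Set Filter Topology H459R3.NS
open scoped ContDiff

namespace Pool.Agent.Q176.PA

open Pool.Agent.Q176.ES (SF)
open Pool.Agent.W795.TQ

/-- the seven directions, with weights -/
def dz : Fin 7 → K3 :=
  ![![1, 0, 0], ![0, 1, 0], ![0, 0, 1], ![1, 1, 1], ![1, 1, -1], ![1, -1, 1], ![1, -1, -1]]
noncomputable def wt : Fin 7 → ℝ := ![1, 1, 1, 1 / 8, 1 / 8, 1 / 8, 1 / 8]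
def nn : Fin 7 → ℝ := ![1, 1, 1, 3, 3, 3, 3]

theorem wt_nonneg (k : Fin 7) : 0 ≤ wt k := by
  fin_cases k <;> simp [wt]

theorem sum_dz (k : Fin 7) : ∑ i, (dz k i : ℝ) ^ 2 = nn k := by
  fin_cases k <;> simp [dz, nn, Fin.sum_univ_three] <;> norm_num

/-- fourth order identities -/
theorem alg0 (S : Fin 3 → Fin 3 → ℝ) (w : Fin 3 → ℝ) :
    ∑ k, wt k * ((∑ j, (dz k j : ℝ) * ∑ i, (dz k i : ℝ) * S i j)
        * (∑ i, (dz k i : ℝ) * w i) ^ 2)
      = 1 / 2 * ((∑ i, S i i) * ∑ i, w i ^ 2) + ∑ i, ∑ j, S i j * (w j * w i) := by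
  simp [Fin.sum_univ_succ, wt, dz]
  ring

theorem alg2 (A : Fin 3 → Fin 3 → ℝ) :
    ∑ k, wt k * (∑ j, (dz k j : ℝ) * ∑ i, (dz k i : ℝ) * A i j) ^ 2
      = 1 / 2 * ∑ i, ∑ j, (A i i * A j j + A i j ^ 2 + A i j * A j i) := by
  simp [Fin.sum_univ_succ, wt, dz]
  ring

theorem alg3 (v : Fin 3 → ℝ) :
    ∑ k, wt k * (nn k * (∑ i, (dz k i : ℝ) * v i) ^ 2) = 5 / 2 * ∑ i, v i ^ 2 := by
  simp [Fin.sum_univ_succ, wt, dz, nn]
  ring

/-- the square of the distance -/
def dsqv (x y : V) : ℝ := ∑ i, (x i - y i) ^ 2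

/-- Bound from below of the velocity differences for all pairs. -/
def PB (κ B : ℝ) (u : V → V) : Prop :=
  ∀ x y : V, -κ - B * dsqv x y ≤ ∑ i, (x i - y i) * (u x i - u y i)

/-- component in the direction `m` -/
def co (m : K3) (u : V → V) (x : V) : ℝ := ∑ i, (m i : ℝ) * u x i

theorem sp_co {u : V → V} (hu : SF u) (m : K3) : SP (co m u) :=
  SP.sum fun i _ => Pool.Agent.Q176.ES.SP.const_mul' (hu i) _

theorem dD_co {u : V → V} (hu : SF u) (m : K3) (x : V) :
    dD m (co m u) x = ∑ j, (m j : ℝ) * ∑ i, (m i : ℝ) * pd j (fun y => u y i) x := by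
  unfold dD
  refine Finset.sum_congr rfl fun j _ => ?_
  congr 1
  have h1 : pd j (co m u) x = ∑ i, pd j (fun y => (m i : ℝ) * u y i) x :=
    pd_sum (fun i _ => Pool.Agent.Q176.ES.SP.const_mul' (hu i) _) j x
  rw [h1]
  refine Finset.sum_congr rfl fun i _ => ?_
  unfold pd
  have h : HasFDerivAt (fun y => (m i : ℝ) * u y i) _ x :=
    ((hu i).diff x).hasFDerivAt.const_mul (m i : ℝ)
  rw [h.fderiv]
  rfl

theorem pair_line {κ B : ℝ} {u : V → V} (hp : PB κ B u) (m : K3) (x : V) {a c : ℝ}
    (hac : a < c) :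
    co m u (x + a • rv m) - co m u (x + c • rv m)
      ≤ κ / (c - a) + ((∑ i, (m i : ℝ) ^ 2) * B) * (c - a) := by
  have h := hp (x + a • rv m) (x + c • rv m)
  have e1 : dsqv (x + a • rv m) (x + c • rv m) = (c - a) ^ 2 * ∑ i, (m i : ℝ) ^ 2 := by
    unfold dsqv rv
    rw [Finset.mul_sum]
    refine Finset.sum_congr rfl fun i _ => ?_
    simp only [Pi.add_apply, Pi.smul_apply, smul_eq_mul]
    ring
  have e2 : ∑ i, ((x + a • rv m) i - (x + c • rv m) i)
      * (u (x + a • rv m) i - u (x + c • rv m) i)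
      = (a - c) * (co m u (x + a • rv m) - co m u (x + c • rv m)) := by
    unfold co
    rw [← Finset.sum_sub_distrib, Finset.mul_sum]
    refine Finset.sum_congr rfl fun i _ => ?_
    simp only [Pi.add_apply, Pi.smul_apply, smul_eq_mul, rv]
    ring
  rw [e1, e2] at h
  have hca : 0 < c - a := by linarith
  set X := co m u (x + a • rv m) - co m u (x + c • rv m) with hX
  have h2 : (c - a) * X ≤ κ + B * ((c - a) ^ 2 * ∑ i, (m i : ℝ) ^ 2) := by linarith
  have h3 : κ / (c - a) + ((∑ i, (m i : ℝ) ^ 2) * B) * (c - a)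
      = (κ + B * ((c - a) ^ 2 * ∑ i, (m i : ℝ) ^ 2)) / (c - a) := by
    field_simp
  rw [h3, le_div_iff₀ hca]
  linarith

/-- `∫ ∂ⱼaᵢ ∂ᵢaⱼ = ∫ ∂ᵢaᵢ ∂ⱼaⱼ` -/
theorem cross {a : V → V} (ha : SF a) (i j : Fin 3) :
    ∫ x in cube, pd j (fun y => a y i) x * pd i (fun y => a y j) x
      = ∫ x in cube, pd i (fun y => a y i) x * pd j (fun y => a y j) x := by
  rw [ibp (ha i) ((ha j).pd i) j, ibp (ha i) ((ha j).pd j) i]
  congr 2
  funext x
  rw [congrFun (pd_comm (ha j) i j) x]

/-- the square of the divergence -/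
noncomputable def dvs (a : V → V) : ℝ := ∫ x in cube, (∑ i, pd i (fun y => a y i) x) ^ 2

theorem dvs_eq {a : V → V} (ha : SF a) :
    dvs a = ∑ i, ∑ j, ∫ x in cube, pd i (fun y => a y i) x * pd j (fun y => a y j) x := by
  unfold dvs
  have e : ∀ x, (∑ i, pd i (fun y => a y i) x) ^ 2
      = ∑ i, ∑ j, pd i (fun y => a y i) x * pd j (fun y => a y j) x := by
    intro x
    rw [sq, Finset.sum_mul_sum]
  simp_rw [e]
  rw [integral_finsetSum _ fun i _ => (SP.sum fun j _ => ((ha i).pd i).mul ((ha j).pd j)).int]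
  refine Finset.sum_congr rfl fun i _ => ?_
  rw [integral_finsetSum _ fun j _ => (((ha i).pd i).mul ((ha j).pd j)).int]

/-- The form inequality for general test fields. -/
theorem gen {u w : V → V} (hu : SF u) (hw : SF w) (hdu : DivF u) {κ B : ℝ} (hκ : 0 ≤ κ)
    (hp : PB κ B u) :
    -tr w u w ≤ 4 / Real.pi * κ * (1 / 2 * (enstrophy w + 2 * dvs w)) + B * (5 / 2 * energy w) := by
  have h1 : ∀ k, wt k * -∫ x in cube, dD (dz k) (co (dz k) u) x * co (dz k) w x ^ 2
      ≤ wt k * (4 / Real.pi * κ * (∫ x in cube, dD (dz k) (co (dz k) w) x ^ 2)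
        + (nn k * B) * ∫ x in cube, co (dz k) w x ^ 2) := by
    intro k
    refine mul_le_mul_of_nonneg_left ?_ (wt_nonneg k)
    have := dir_torus (sp_co hu (dz k)) (sp_co hw (dz k)) (dz k) hκ
      (b := nn k * B) (fun x a c hac => by
        have := pair_line hp (dz k) x hac
        rwa [sum_dz] at this)
    exact this
  have h2 := Finset.sum_le_sum fun k (_ : k ∈ Finset.univ) => h1 k
  have sq_sp : ∀ {g : V → ℝ}, SP g → SP fun x => g x ^ 2 := by
    intro g hg
    have := hg.mul hg
    have e : (fun x => g x * g x) = fun x => g x ^ 2 := by funext x; ring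
    rwa [e] at this
  have i1 : ∀ k, SP fun x => dD (dz k) (co (dz k) u) x * co (dz k) w x ^ 2 := fun k =>
    (sp_dD (sp_co hu _) _).mul (sq_sp (sp_co hw _))
  have i2 : ∀ k, SP fun x => dD (dz k) (co (dz k) w) x ^ 2 := fun k =>
    sq_sp (sp_dD (sp_co hw _) _)
  have i3 : ∀ k, SP fun x => co (dz k) w x ^ 2 := fun k => sq_sp (sp_co hw _)
  -- left side
  have e1 : ∑ k, wt k * -∫ x in cube, dD (dz k) (co (dz k) u) x * co (dz k) w x ^ 2
      = -tr w u w := by
    have a1 : ∀ k, wt k * -∫ x in cube, dD (dz k) (co (dz k) u) x * co (dz k) w x ^ 2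
        = -∫ x in cube, wt k * (dD (dz k) (co (dz k) u) x * co (dz k) w x ^ 2) := by
      intro k
      rw [integral_const_mul]; ring
    simp_rw [a1]
    rw [Finset.sum_neg_distrib, ← integral_finsetSum _ fun k _ => (i1 k).int.const_mul (wt k)]
    congr 1
    have a2 : ∀ x, ∑ k, wt k * (dD (dz k) (co (dz k) u) x * co (dz k) w x ^ 2)
        = ∑ i, ∑ j, w x j * (pd j (fun y => u y i) x * w x i) := by
      intro x
      have := alg0 (fun i j => pd j (fun y => u y i) x) (w x)
      rw [hdu x, zero_mul, mul_zero, zero_add] at this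
      calc ∑ k, wt k * (dD (dz k) (co (dz k) u) x * co (dz k) w x ^ 2)
          = ∑ k, wt k * ((∑ j, (dz k j : ℝ) * ∑ i, (dz k i : ℝ) * pd j (fun y => u y i) x)
              * (∑ i, (dz k i : ℝ) * w x i) ^ 2) := by
            refine Finset.sum_congr rfl fun k _ => ?_
            rw [dD_co hu]; rfl
        _ = ∑ i, ∑ j, pd j (fun y => u y i) x * (w x j * w x i) := this
        _ = _ := Finset.sum_congr rfl fun i _ => Finset.sum_congr rfl fun j _ => by ring
    simp_rw [a2]
    unfold tr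
    rw [integral_finsetSum _ fun i _ => (SP.sum fun j _ =>
      (hw j).mul (((hu i).pd j).mul (hw i))).int]
    refine Finset.sum_congr rfl fun i _ => ?_
    rw [integral_finsetSum _ fun j _ => ((hw j).mul (((hu i).pd j).mul (hw i))).int]
  -- the gradient terms
  have e2 : ∑ k, wt k * ∫ x in cube, dD (dz k) (co (dz k) w) x ^ 2
      = 1 / 2 * (enstrophy w + 2 * dvs w) := by
    simp_rw [← integral_const_mul]
    rw [← integral_finsetSum _ fun k _ => (i2 k).int.const_mul (wt k)]
    have a2 : ∀ x, ∑ k, wt k * dD (dz k) (co (dz k) w) x ^ 2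
        = 1 / 2 * ∑ i, ∑ j, (pd i (fun y => w y i) x * pd j (fun y => w y j) x
          + pd j (fun y => w y i) x ^ 2 + pd j (fun y => w y i) x * pd i (fun y => w y j) x) := by
      intro x
      have := alg2 (fun i j => pd j (fun y => w y i) x)
      rw [← this]
      refine Finset.sum_congr rfl fun k _ => ?_
      rw [dD_co hw]
    simp_rw [a2]
    rw [integral_const_mul]
    congr 1
    have j1 : ∀ i j, SP fun x => pd i (fun y => w y i) x * pd j (fun y => w y j) x :=
      fun i j => ((hw i).pd i).mul ((hw j).pd j)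
    have j2 : ∀ i j, SP fun x => pd j (fun y => w y i) x ^ 2 := fun i j => sq_sp ((hw i).pd j)
    have j3 : ∀ i j, SP fun x => pd j (fun y => w y i) x * pd i (fun y => w y j) x :=
      fun i j => ((hw i).pd j).mul ((hw j).pd i)
    have j12 : ∀ i j, SP fun x => pd i (fun y => w y i) x * pd j (fun y => w y j) x
      + pd j (fun y => w y i) x ^ 2 := fun i j => (j1 i j).add (j2 i j)
    have j123 : ∀ i j, SP fun x => pd i (fun y => w y i) x * pd j (fun y => w y j) x
      + pd j (fun y => w y i) x ^ 2 + pd j (fun y => w y i) x * pd i (fun y => w y j) x :=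
      fun i j => (j12 i j).add (j3 i j)
    rw [integral_finsetSum _ fun i _ => (SP.sum fun j _ => j123 i j).int]
    have a3 : ∀ i, ∫ x in cube, ∑ j, (pd i (fun y => w y i) x * pd j (fun y => w y j) x
          + pd j (fun y => w y i) x ^ 2 + pd j (fun y => w y i) x * pd i (fun y => w y j) x)
        = ∑ j, ((∫ x in cube, pd i (fun y => w y i) x * pd j (fun y => w y j) x)
          + (∫ x in cube, pd j (fun y => w y i) x ^ 2)
          + ∫ x in cube, pd i (fun y => w y i) x * pd j (fun y => w y j) x) := by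
      intro i
      rw [integral_finsetSum _ fun j _ => (j123 i j).int]
      refine Finset.sum_congr rfl fun j _ => ?_
      rw [integral_add (j12 i j).int (j3 i j).int, integral_add (j1 i j).int (j2 i j).int,
        cross hw i j]
    simp_rw [a3]
    rw [dvs_eq hw]
    unfold enstrophy
    simp_rw [Finset.sum_add_distrib]
    ring
  -- the last terms
  have e3 : ∑ k, wt k * (nn k * ∫ x in cube, co (dz k) w x ^ 2) = 5 / 2 * energy w := by
    simp_rw [← integral_const_mul]
    rw [← integral_finsetSum _ fun k _ => ((i3 k).int.const_mul (nn k)).const_mul (wt k)]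
    have a2 : ∀ x, ∑ k, wt k * (nn k * co (dz k) w x ^ 2) = 5 / 2 * ∑ i, w x i ^ 2 :=
      fun x => alg3 (w x)
    simp_rw [a2]
    rw [integral_const_mul]
    congr 1
    unfold energy
    rw [integral_finsetSum _ fun i _ => (sq_sp (hw i)).int]
  rw [e1] at h2
  refine h2.trans (le_of_eq ?_)
  rw [← e2, ← e3, Finset.mul_sum, Finset.mul_sum, ← Finset.sum_add_distrib]
  refine Finset.sum_congr rfl fun k _ => ?_
  ring

theorem dvs_zero {w : V → V} (hd : DivF w) : dvs w = 0 := by
  unfold dvs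
  simp_rw [hd _]
  simp

/-- **Form inequality**, particles approach slowly. -/
theorem formA {u w : V → V} (hu : SF u) (hw : SF w) (hdu : DivF u) (hdw : DivF w) {κ B : ℝ}
    (hκ : 0 ≤ κ) (hp : PB κ B u) :
    -tr w u w ≤ 2 / Real.pi * κ * enstrophy w + 5 / 2 * B * energy w := by
  have h := gen hu hw hdu hκ hp
  rw [dvs_zero hdw] at h
  refine h.trans (le_of_eq ?_)
  ring

/-- the three cross products with the basis vectors -/
def cr : Fin 3 → Fin 3 → Fin 3 → ℝ :=
  ![![![0, 0, 0], ![0, 0, 1], ![0, -1, 0]], ![![0, 0, -1], ![0, 0, 0], ![1, 0, 0]],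
    ![![0, 1, 0], ![-1, 0, 0], ![0, 0, 0]]]

/-- the cross product with a basis vector -/
def Wk (w : V → V) (k : Fin 3) (x : V) (i : Fin 3) : ℝ := ∑ a, cr k i a * w x a

theorem sf_Wk {w : V → V} (hw : SF w) (k : Fin 3) : SF (Wk w k) := fun _ =>
  SP.sum fun a _ => Pool.Agent.Q176.ES.SP.const_mul' (hw a) _

theorem pd_Wk {w : V → V} (hw : SF w) (k i j : Fin 3) (x : V) :
    pd j (fun y => Wk w k y i) x = ∑ a, cr k i a * pd j (fun y => w y a) x := by
  have h1 : pd j (fun y => Wk w k y i) x = ∑ a, pd j (fun y => cr k i a * w y a) x :=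
    pd_sum (fun a _ => Pool.Agent.Q176.ES.SP.const_mul' (hw a) _) j x
  rw [h1]
  refine Finset.sum_congr rfl fun a _ => ?_
  unfold pd
  have h : HasFDerivAt (fun y => cr k i a * w y a) _ x :=
    ((hw a).diff x).hasFDerivAt.const_mul (cr k i a)
  rw [h.fderiv]
  rfl

/-- **Form inequality**, particles separate slowly. -/
theorem formB {u w : V → V} (hu : SF u) (hw : SF w) (hdu : DivF u) (hdw : DivF w) {κ B : ℝ}
    (hκ : 0 ≤ κ) (hp : PB κ B fun x => -u x) :
    -tr w u w ≤ 8 / Real.pi * κ * enstrophy w + 5 * B * energy w := by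
  have hun : SF fun x => -u x := fun i => by
    have := Pool.Agent.Q176.ES.SP.const_mul' (hu i) (-1)
    have e : (fun y => (-u y) i) = fun x => -1 * u x i := by funext x; simp
    rw [e]; exact this
  have pdn : ∀ i j x, pd j (fun y => (-u y) i) x = -pd j (fun y => u y i) x := by
    intro i j x
    unfold pd
    have h : HasFDerivAt (fun y => (-u y) i) _ x := ((hu i).diff x).hasFDerivAt.neg
    rw [h.fderiv]
    rfl
  have hdun : DivF fun x => -u x := by
    intro x
    simp_rw [pdn]
    rw [Finset.sum_neg_distrib, hdu x, neg_zero]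
  have hW := fun k => sf_Wk hw k
  have hg := fun k => gen hun (hW k) hdun hκ hp
  have hsum := Finset.sum_le_sum fun k (_ : k ∈ Finset.univ) => hg k
  have sq_sp : ∀ {g : V → ℝ}, SP g → SP fun x => g x ^ 2 := by
    intro g hg
    have := hg.mul hg
    have e : (fun x => g x * g x) = fun x => g x ^ 2 := by funext x; ring
    rwa [e] at this
  -- writing the quantities as single integrals
  have tr1 : ∀ {a b c : V → V}, SF a → SF b → SF c → tr a b c
      = ∫ x in cube, ∑ i, ∑ j, a x j * (pd j (fun y => b y i) x * c x i) := by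
    intro a b c ha hb hc
    unfold tr
    rw [integral_finsetSum _ fun i _ => (SP.sum fun j _ =>
      (ha j).mul (((hb i).pd j).mul (hc i))).int]
    refine Finset.sum_congr rfl fun i _ => ?_
    rw [integral_finsetSum _ fun j _ => ((ha j).mul (((hb i).pd j).mul (hc i))).int]
  have en1 : ∀ {a : V → V}, SF a → energy a = ∫ x in cube, ∑ i, a x i ^ 2 := by
    intro a ha
    unfold energy
    rw [integral_finsetSum _ fun i _ => (sq_sp (ha i)).int]
  have es1 : ∀ {a : V → V}, SF a → enstrophy a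
      = ∫ x in cube, ∑ i, ∑ j, pd j (fun y => a y i) x ^ 2 := by
    intro a ha
    unfold enstrophy
    rw [integral_finsetSum _ fun i _ => (SP.sum fun j _ => sq_sp ((ha i).pd j)).int]
    refine Finset.sum_congr rfl fun i _ => ?_
    rw [integral_finsetSum _ fun j _ => (sq_sp ((ha i).pd j)).int]
  have sp_tr : ∀ {a b c : V → V}, SF a → SF b → SF c →
      SP fun x => ∑ i, ∑ j, a x j * (pd j (fun y => b y i) x * c x i) :=
    fun ha hb hc => SP.sum fun i _ => SP.sum fun j _ => (ha j).mul (((hb i).pd j).mul (hc i))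
  have sp_es : ∀ {a : V → V}, SF a → SP fun x => ∑ i, ∑ j, pd j (fun y => a y i) x ^ 2 :=
    fun ha => SP.sum fun i _ => SP.sum fun j _ => sq_sp ((ha i).pd j)
  have sp_dv : ∀ {a : V → V}, SF a → SP fun x => (∑ i, pd i (fun y => a y i) x) ^ 2 :=
    fun ha => sq_sp (SP.sum fun i _ => (ha i).pd i)
  have sp_en : ∀ {a : V → V}, SF a → SP fun x => ∑ i, a x i ^ 2 :=
    fun ha => SP.sum fun i _ => sq_sp (ha i)
  have e1 : ∑ k, -tr (Wk w k) (fun x => -u x) (Wk w k) = -tr w u w := by
    rw [Finset.sum_neg_distrib]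
    congr 1
    have : ∀ k, tr (Wk w k) (fun x => -u x) (Wk w k) = _ := fun k => tr1 (hW k) hun (hW k)
    simp_rw [this]
    rw [← integral_finsetSum _ fun k _ => (sp_tr (hW k) hun (hW k)).int, tr1 hw hu hw]
    congr 1; funext x
    simp_rw [pdn]
    have hd := hdu x
    rw [Fin.sum_univ_three] at hd
    have hd' : pd 2 (fun y => u y 2) x
        = -pd 0 (fun y => u y 0) x - pd 1 (fun y => u y 1) x := by linarith
    simp only [Fin.sum_univ_three, hd', Wk, cr]
    simp
    ring
  have e2 : ∑ k, (enstrophy (Wk w k) + 2 * dvs (Wk w k)) = 4 * enstrophy w := by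
    have a1 : ∀ k, enstrophy (Wk w k) + 2 * dvs (Wk w k)
        = ∫ x in cube, ((∑ i, ∑ j, pd j (fun y => Wk w k y i) x ^ 2)
          + 2 * (∑ i, pd i (fun y => Wk w k y i) x) ^ 2) := by
      intro k
      rw [es1 (hW k)]
      unfold dvs
      rw [← integral_const_mul, ← integral_add (sp_es (hW k)).int
        ((sp_dv (hW k)).int.const_mul 2)]
    simp_rw [a1]
    rw [← integral_finsetSum _ fun k _ => ((sp_es (hW k)).add
      (Pool.Agent.Q176.ES.SP.const_mul' (sp_dv (hW k)) 2)).int]
    have sp_cr : SP fun x => ∑ i, ∑ j, pd j (fun y => w y i) x * pd i (fun y => w y j) x :=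
      SP.sum fun i _ => SP.sum fun j _ => ((hw i).pd j).mul ((hw j).pd i)
    have a2 : ∀ x, ∑ k, ((∑ i, ∑ j, pd j (fun y => Wk w k y i) x ^ 2)
          + 2 * (∑ i, pd i (fun y => Wk w k y i) x) ^ 2)
        = 4 * (∑ i, ∑ j, pd j (fun y => w y i) x ^ 2)
          + (-2) * ∑ i, ∑ j, pd j (fun y => w y i) x * pd i (fun y => w y j) x := by
      intro x
      simp_rw [pd_Wk hw]
      simp only [Fin.sum_univ_three, cr]
      simp
      ring
    simp_rw [a2]
    rw [integral_add ((sp_es hw).int.const_mul 4) (sp_cr.int.const_mul (-2)),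
      integral_const_mul, integral_const_mul, ← es1 hw]
    have a3 : ∫ x in cube, ∑ i, ∑ j, pd j (fun y => w y i) x * pd i (fun y => w y j) x = 0 := by
      rw [integral_finsetSum _ fun i _ => (SP.sum fun j _ => ((hw i).pd j).mul ((hw j).pd i)).int]
      have : ∀ i, ∫ x in cube, ∑ j, pd j (fun y => w y i) x * pd i (fun y => w y j) x
          = ∑ j, ∫ x in cube, pd i (fun y => w y i) x * pd j (fun y => w y j) x := by
        intro i
        rw [integral_finsetSum _ fun j _ => (((hw i).pd j).mul ((hw j).pd i)).int]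
        exact Finset.sum_congr rfl fun j _ => cross hw i j
      simp_rw [this]
      rw [← dvs_eq hw, dvs_zero hdw]
    rw [a3]
    ring
  have e3 : ∑ k, energy (Wk w k) = 2 * energy w := by
    have : ∀ k, energy (Wk w k) = _ := fun k => en1 (hW k)
    simp_rw [this]
    rw [← integral_finsetSum _ fun k _ => (sp_en (hW k)).int, en1 hw, ← integral_const_mul]
    congr 1; funext x
    simp only [Fin.sum_univ_three, Wk, cr]
    simp
    ring
  rw [e1, Finset.sum_add_distrib, ← Finset.mul_sum, ← Finset.mul_sum, ← Finset.mul_sum,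
    ← Finset.mul_sum, e2, e3] at hsum
  refine hsum.trans (le_of_eq ?_)
  ring

end Pool.Agent.Q176.PA
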