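import Pool.Agent.Q176.PA.P5
import Pool.Agent.Q176.ES.F9

/-!
Pairs of particles which approach each other slowly.
-/

set_option autoImplicit false

open MeasureTheory Set Filter Topology H459R3.NS
open scoped ContDiff

namespace Pool.Agent.Q176.PA

open Pool.Agent.Q176.ES (SF Bd Grow Above)
open Pool.Agent.W795.TQ

/-- Particles at distance less than `r` approach slowly. -/
def Approach (κ B r : ℝ) (v : V → V) : Prop :=
  ∀ x y : V, ∑ i, (x i - y i) ^ 2 < r ^ 2 →
    -κ - B * ∑ i, (x i - y i) ^ 2 ≤ ∑ i, (x i - y i) * (v x i - v y i)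

/-- Particles at distance less than `r` separate slowly. -/
def Separate (κ B r : ℝ) (v : V → V) : Prop :=
  ∀ x y : V, ∑ i, (x i - y i) ^ 2 < r ^ 2 →
    ∑ i, (x i - y i) * (v x i - v y i) ≤ κ + B * ∑ i, (x i - y i) ^ 2

/-- For some `B ≥ 0` and `r > 0` with `B + 4 c ν / r² ≤ β`, particles at distance less than `r`
approach slowly, with the constants `c ν` and `B`, or they separate slowly, with `c ν / 4` and
`B / 2`. -/
def SlowPairs (c ν β : ℝ) (v : V → V) : Prop :=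
  ∃ B r : ℝ, 0 ≤ B ∧ 0 < r ∧ B + 4 * (c * ν) / r ^ 2 ≤ β ∧
    (Approach (c * ν) B r v ∨ Separate (c * ν / 4) (B / 2) r v)

/-- The chain argument -/
theorem chain {κ B r : ℝ} (hκ : 0 ≤ κ) (hr : 0 < r) {v : V → V} (h : Approach κ B r v) :
    PB κ (B + 4 * κ / r ^ 2) v := by
  intro x y
  set L := ∑ i, (x i - y i) ^ 2 with hL
  have hL0 : 0 ≤ L := Finset.sum_nonneg fun _ _ => sq_nonneg _
  have hdL : dsqv x y = L := rfl
  rw [hdL]
  rcases lt_or_ge L (r ^ 2) with h1 | h1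
  · have h2 := h x y h1
    rw [← hL] at h2
    have h3 : 0 ≤ 4 * κ / r ^ 2 * L := by positivity
    have h4 : (B + 4 * κ / r ^ 2) * L = B * L + 4 * κ / r ^ 2 * L := by ring
    linarith
  -- split the segment
  set ℓ := Real.sqrt L with hℓ
  have hℓ2 : ℓ ^ 2 = L := Real.sq_sqrt hL0
  have hℓr : r ≤ ℓ := Real.le_sqrt_of_sq_le h1
  have hℓ0 : 0 < ℓ := hr.trans_le hℓr
  set n : ℕ := ⌊ℓ / r⌋₊ + 1 with hn
  have hn1 : (1 : ℝ) ≤ n := by rw [hn]; push_cast; linarith [Nat.cast_nonneg (α := ℝ) ⌊ℓ / r⌋₊]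
  have hn0 : (0 : ℝ) < n := by linarith
  have hnl : ℓ / r < n := by rw [hn]; push_cast; exact Nat.lt_floor_add_one _
  have hnu : (n : ℝ) ≤ 2 * (ℓ / r) := by
    have h2 : (⌊ℓ / r⌋₊ : ℝ) ≤ ℓ / r := Nat.floor_le (by positivity)
    have h3 : 1 ≤ ℓ / r := by rw [le_div_iff₀ hr]; linarith
    rw [hn]; push_cast; linarith
  set z : ℕ → V := fun m i => y i + (m / n : ℝ) * (x i - y i) with hz
  have hz0 : z 0 = y := by funext i; simp [hz]
  have hzn : z n = x := by
    funext i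
    simp only [hz]
    rw [div_self hn0.ne']; ring
  have hd : ∀ m i, z (m + 1) i - z m i = (x i - y i) / n := by
    intro m i
    simp only [hz]
    push_cast
    field_simp
    ring
  have hdist : ∀ m, ∑ i, (z (m + 1) i - z m i) ^ 2 = L / n ^ 2 := by
    intro m
    simp_rw [hd, div_pow]
    rw [← Finset.sum_div]
  have hstep : ∀ m, -κ - B * (L / n ^ 2)
      ≤ (∑ i, (x i - y i) * (v (z (m + 1)) i - v (z m) i)) / n := by
    intro m
    have h2 := h (z (m + 1)) (z m) (by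
      rw [hdist, div_lt_iff₀ (by positivity), ← hℓ2, ← mul_pow]
      apply pow_lt_pow_left₀ _ hℓ0.le (by norm_num)
      rw [div_lt_iff₀ hr] at hnl
      linarith)
    rw [hdist] at h2
    refine h2.trans (le_of_eq ?_)
    rw [Finset.sum_div]
    refine Finset.sum_congr rfl fun i _ => ?_
    rw [hd]; ring
  have hsum : ∑ m ∈ Finset.range n, (-κ - B * (L / n ^ 2))
      ≤ ∑ m ∈ Finset.range n, (∑ i, (x i - y i) * (v (z (m + 1)) i - v (z m) i)) / n :=
    Finset.sum_le_sum fun m _ => hstep m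
  rw [Finset.sum_const, Finset.card_range, nsmul_eq_mul, ← Finset.sum_div] at hsum
  have htel : ∑ m ∈ Finset.range n, ∑ i, (x i - y i) * (v (z (m + 1)) i - v (z m) i)
      = ∑ i, (x i - y i) * (v x i - v y i) := by
    rw [Finset.sum_comm]
    refine Finset.sum_congr rfl fun i _ => ?_
    rw [← Finset.mul_sum, Finset.sum_range_sub (fun m => v (z m) i), hz0, hzn]
  rw [htel, le_div_iff₀ hn0] at hsum
  have h5 : (n : ℝ) * (-κ - B * (L / n ^ 2)) * n = -(n ^ 2 * κ) - B * L := by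
    field_simp
  rw [h5] at hsum
  have h6 : (n : ℝ) ^ 2 * κ ≤ 4 * κ / r ^ 2 * L := by
    calc (n : ℝ) ^ 2 * κ ≤ (2 * (ℓ / r)) ^ 2 * κ := by gcongr
      _ = 4 * κ / r ^ 2 * L := by rw [← hℓ2]; ring
  have h7 : (B + 4 * κ / r ^ 2) * L = B * L + 4 * κ / r ^ 2 * L := by ring
  linarith

theorem chain' {κ B r : ℝ} (hκ : 0 ≤ κ) (hr : 0 < r) {v : V → V} (h : Separate κ B r v) :
    PB κ (B + 4 * κ / r ^ 2) fun x => -v x := by
  refine chain hκ hr fun x y hxy => ?_
  have h1 := h x y hxy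
  have e : ∑ i, (x i - y i) * ((-v x) i - (-v y) i) = -∑ i, (x i - y i) * (v x i - v y i) := by
    rw [← Finset.sum_neg_distrib]
    refine Finset.sum_congr rfl fun i _ => ?_
    simp only [Pi.neg_apply]; ring
  rw [e]
  linarith

theorem sf_of_spv {w : V → V} (h : SPV w) : SF w := fun i =>
  ⟨(contDiff_pi.1 h.1) i, fun j x => by simp only [h.2 j x]⟩

theorem grow_of_slow {c ν β : ℝ} (hν : 0 < ν) (hc : 0 ≤ c) {v : V → V} (hv : SF v)
    (hdv : DivF v) (h : SlowPairs c ν β v) (L : ℝ) :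
    Grow ν (1 - 2 / Real.pi * c) L v (5 / 2 * β) := by
  intro w hw hdw _
  have hpi := Real.pi_pos
  obtain ⟨B, r, hB, hr, hβ, h1⟩ := h
  have hcν : 0 ≤ c * ν := mul_nonneg hc hν.le
  have sw := sf_of_spv hw
  have hE : 0 ≤ energy w := energy_nonneg w
  have hX : 0 ≤ (c * ν) / r ^ 2 := by positivity
  have e1 : (1 - (1 - 2 / Real.pi * c)) * ν * enstrophy w = 2 / Real.pi * (c * ν) * enstrophy w := by
    ring
  rw [e1]
  rcases h1 with h1 | h1
  · have h2 := formA hv sw hdv hdw hcν (chain hcν hr h1)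
    refine h2.trans ?_
    have h3 : 5 / 2 * (B + 4 * (c * ν) / r ^ 2) * energy w ≤ 5 / 2 * β * energy w := by gcongr
    linarith
  · have h2 := formB hv sw hdv hdw (by positivity) (chain' (by positivity) hr h1)
    refine h2.trans ?_
    have e2 : 8 / Real.pi * (c * ν / 4) * enstrophy w = 2 / Real.pi * (c * ν) * enstrophy w := by
      ring
    rw [e2]
    have h3 : 5 * (B / 2 + 4 * (c * ν / 4) / r ^ 2) ≤ 5 / 2 * β := by
      have e3 : 4 * (c * ν / 4) / r ^ 2 = c * ν / r ^ 2 := by ring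
      have e4 : 4 * (c * ν) / r ^ 2 = 4 * (c * ν / r ^ 2) := by ring
      rw [e3]
      rw [e4] at hβ
      linarith
    have h4 := mul_le_mul_of_nonneg_right h3 hE
    linarith

theorem crit : ∀ (ν T : ℝ) (u : ℝ → V → V) (p : ℝ → V → ℝ), 0 < ν → IsSol ν T u p → ¬ Bd T u →
    ∀ c : ℝ, 0 ≤ c → c < Real.pi / 2 → ∀ s ∈ Ico 0 T, ∃ M : ℝ, ∀ β : ℝ → ℝ, (∀ t, 0 ≤ β t) →
      (∀ t ∈ Ioo s T, IntervalIntegrable β volume s t) →
      (∀ᵐ t ∂(volume.restrict (Ioo s T)), SlowPairs c ν (β t) (u t)) →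
      (∀ t ∈ Ioo s T, 1 / 5 * Real.log (1 / (T - t)) - M ≤ ∫ r in s..t, β r) ∧
      ∀ t1 < T, ∃ t ∈ Ioo t1 T, s < t ∧
        3 / 10 * Real.log (1 / (T - t)) - M ≤ ∫ r in s..t, β r := by
  intro ν T u p hν h hB c hc hc2 s hs
  have hpi := Real.pi_pos
  have hδ : 0 < 1 - 2 / Real.pi * c := by
    have : 2 / Real.pi * c < 1 := by
      rw [div_mul_eq_mul_div, div_lt_one hpi]; linarith
    linarith
  obtain ⟨M, hM⟩ := Pool.Agent.Q176.ES.main ν T u p hν h hB 0 0 (1 - 2 / Real.pi * c) s le_rfl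
    (by norm_num) le_rfl hδ hs
  refine ⟨2 / 5 * M, fun β hβ0 hβi hslow => ?_⟩
  have h1 := hM (fun t => 5 / 2 * β t) (fun t => by have := hβ0 t; positivity)
    (fun t ht => (hβi t ht).const_mul _) (by
      filter_upwards [hslow, ae_restrict_mem measurableSet_Ioo] with t ht htI
      have htI' : t ∈ Ioo 0 T := ⟨hs.1.trans_lt htI.1, htI.2⟩
      exact grow_of_slow hν hc (Pool.Agent.Q176.ES.SF_u h htI')
        (h.divfree t ⟨htI'.1.le, htI'.2⟩) ht _)
  simp only [intervalIntegral.integral_const_mul] at h1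
  refine ⟨fun t ht => ?_, fun t1 ht1 => ?_⟩
  · have := h1.1 t ht
    linarith
  · obtain ⟨t, ht, hst, h2⟩ := h1.2 t1 ht1
    exact ⟨t, ht, hst, by linarith⟩

theorem explicit {ν T c : ℝ} {u : ℝ → V → V} (hν : 0 < ν) (hT : 0 < T) (hc : 0 ≤ c)
    (hcr : ∀ s ∈ Ico 0 T, ∃ M : ℝ, ∀ β : ℝ → ℝ, (∀ t, 0 ≤ β t) →
      (∀ t ∈ Ioo s T, IntervalIntegrable β volume s t) →
      (∀ᵐ t ∂(volume.restrict (Ioo s T)), SlowPairs c ν (β t) (u t)) →
      (∀ t ∈ Ioo s T, 1 / 5 * Real.log (1 / (T - t)) - M ≤ ∫ r in s..t, β r) ∧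
      ∀ t1 < T, ∃ t ∈ Ioo t1 T, s < t ∧
        3 / 10 * Real.log (1 / (T - t)) - M ≤ ∫ r in s..t, β r)
    {b k t1 : ℝ} (hb : 0 ≤ b) (hk : 0 < k) (hbk : b + 4 * c / k ^ 2 < 3 / 10) (ht1 : t1 < T) :
    ¬ ∀ᵐ t ∂(volume.restrict (Ioo t1 T)),
      Approach (c * ν) (b / (T - t)) (k * Real.sqrt (ν * (T - t))) (u t) ∨
      Separate (c * ν / 4) (b / (2 * (T - t))) (k * Real.sqrt (ν * (T - t))) (u t) := by
  intro hyp
  set γ := b + 4 * c / k ^ 2 with hγ
  have hγ0 : 0 ≤ γ := by positivity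
  set s := max t1 0 with hs
  have hsT : s < T := max_lt ht1 hT
  have hs0 : 0 ≤ s := le_max_right _ _
  obtain ⟨M, hM⟩ := hcr s ⟨hs0, hsT⟩
  set β : ℝ → ℝ := fun t => γ * |(T - t)⁻¹| with hβ
  have hβT : ∀ t, t < T → β t = γ * (T - t)⁻¹ := fun t ht => by
    simp only [hβ]; rw [abs_of_pos (inv_pos.2 (by linarith))]
  have hder : ∀ t, s ≤ t → t < T → IntervalIntegrable β volume s t ∧
      ∫ r in s..t, β r = γ * (Real.log (T - s) - Real.log (T - t)) := by
    intro t hst htT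
    have hsub : ∀ r ∈ uIcc s t, r < T := by
      intro r hr
      rw [uIcc_of_le hst] at hr
      exact hr.2.trans_lt htT
    have hc1 : ContinuousOn (fun r => γ * (T - r)⁻¹) (uIcc s t) := by
      refine continuousOn_const.mul (ContinuousOn.inv₀ (by fun_prop) fun r hr => ?_)
      linarith [hsub r hr]
    have hi : IntervalIntegrable (fun r => γ * (T - r)⁻¹) volume s t := hc1.intervalIntegrable
    have hcg : ∀ r ∈ uIcc s t, β r = γ * (T - r)⁻¹ := fun r hr => hβT r (hsub r hr)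
    refine ⟨(hc1.congr hcg).intervalIntegrable, ?_⟩
    rw [intervalIntegral.integral_congr hcg]
    have h1 : ∀ r ∈ uIcc s t, HasDerivAt (fun r => -(γ * Real.log (T - r))) (γ * (T - r)⁻¹) r := by
      intro r hr
      have hp : T - r ≠ 0 := by linarith [hsub r hr]
      have h2 : HasDerivAt (fun t => T - t) (-1) r := by
        simpa using (hasDerivAt_id r).const_sub T
      refine ((h2.log hp).const_mul γ).neg.congr_deriv ?_
      field_simp
    rw [intervalIntegral.integral_eq_sub_of_hasDerivAt h1 hi]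
    ring
  have hyp' : ∀ᵐ t ∂(volume.restrict (Ioo s T)), SlowPairs c ν (β t) (u t) := by
    have h1 := ae_mono (Measure.restrict_mono (Ioo_subset_Ioo_left (le_max_left t1 0)) le_rfl) hyp
    filter_upwards [h1, ae_restrict_mem measurableSet_Ioo] with t ht htI
    have hp : 0 < T - t := by linarith [htI.2]
    have hsq : Real.sqrt (ν * (T - t)) ^ 2 = ν * (T - t) := Real.sq_sqrt (by positivity)
    refine ⟨b / (T - t), k * Real.sqrt (ν * (T - t)), by positivity, by positivity, ?_, ?_⟩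
    · rw [hβT t htI.2, mul_pow, hsq, hγ]
      apply le_of_eq
      field_simp
    · have e : b / (T - t) / 2 = b / (2 * (T - t)) := by field_simp
      rw [e]
      exact ht
  have h1 := (hM β (fun t => by simp only [hβ]; positivity) (fun t ht => (hder t ht.1.le ht.2).1)
    hyp').2
  -- choose a time close to `T`
  have hd : 0 < 3 / 10 - γ := by linarith
  set X := (M + γ * Real.log (T - s)) / (3 / 10 - γ) + 1 with hX
  have ht0 : T - Real.exp (-X) < T := by linarith [Real.exp_pos (-X)]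
  obtain ⟨t, ht, hst, h2⟩ := h1 _ ht0
  rw [(hder t hst.le ht.2).2] at h2
  have hp : 0 < T - t := by linarith [ht.2]
  have h3 : T - t < Real.exp (-X) := by linarith [ht.1]
  have h4 : Real.log (T - t) < -X := by
    rw [← Real.log_exp (-X)]
    exact Real.log_lt_log hp h3
  rw [one_div, Real.log_inv] at h2
  have h5 : (3 / 10 - γ) * (-Real.log (T - t)) ≤ M + γ * Real.log (T - s) := by linarith
  have h6 : (3 / 10 - γ) * X = M + γ * Real.log (T - s) + (3 / 10 - γ) := by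
    rw [hX, mul_add, mul_one, mul_div_cancel₀ _ hd.ne']
  have h7 : (3 / 10 - γ) * X < (3 / 10 - γ) * (-Real.log (T - t)) :=
    mul_lt_mul_of_pos_left (by linarith) hd
  linarith

end Pool.Agent.Q176.PA
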